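import Mathlib
import Pool.Graph.R_seed8.Results.MP_e44225_nt.LogTermDependsOnS

/-!
# Smooth curves in the weighted projective plane `P(1, m, 1)` and their heights

`k` is a number field, `m, n ≥ 1`, and `F(X, Y, Z)` is a form of weighted degree `n m` (weights
`1, m, 1`) over `k` in which `Y ^ n` occurs. If it is smooth, `X : F = 0` is a smooth projective
curve over `k`. The map `t = (X : Z) : X → P¹` has degree `n`, and `t^* O(1) = O_X(1)`; by the
adjunction formula `K_X = O_X(n m - m - 2) = t^* O(n m - m - 2)`.
* `m = 1`: `X` is any smooth plane curve of degree `n` not passing through `(0 : 1 : 0)`;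
* `n = 2`: `X` is any hyperelliptic curve of genus `m - 1`.
-/

set_option autoImplicit false

namespace Pool.Agent.H505.VL

open NumberField Real Polynomial

/-- The weights of the coordinates `X, Y, Z` of `P(1, m, 1)`. -/
def wt (m : ℕ) : Fin 3 → ℕ := ![1, m, 1]

/-- `F = 0` is a smooth curve of degree `n m` in the weighted projective plane `P(1, m, 1)` over
`k` which does not contain the point `(0 : 1 : 0)`. -/
structure SmoothCurve (k : Type) [Field k] (m n : ℕ) (F : MvPolynomial (Fin 3) k) : Prop where
  /-- `F` is weighted homogeneous of degree `n m`. -/
  homogeneous : F.IsWeightedHomogeneous (wt m) (n * m)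
  /-- the coefficient of `Y ^ n` is not zero: the point `(0 : 1 : 0)` is not on the curve -/
  avoids : F.coeff (Finsupp.single 1 n) ≠ 0
  /-- the partial derivatives have no common zero on the curve -/
  smooth : ∀ P : Fin 3 → AlgebraicClosure k, P ≠ 0 → MvPolynomial.aeval P F = 0 →
    ∃ i, MvPolynomial.aeval P (MvPolynomial.pderiv i F) ≠ 0

/-- The polynomial in `Y` whose zeros are the points of the curve `F = 0` over the point `b` of
`P¹(k) = k ∪ {∞}`: it is `F(c, Y, 1)` for `b = (c : 1)` and `F(1, Y, 0)` for `b = (1 : 0) = ∞`. -/
noncomputable def fibre {k : Type} [Field k] (F : MvPolynomial (Fin 3) k) : Option k → k[X]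
  | some c => MvPolynomial.aeval ![C c, X, C 1] F
  | none => MvPolynomial.aeval ![C 1, X, C 0] F

section
variable (k : Type) [Field k] [NumberField k]

instance adjoin_finite (x y : AlgebraicClosure k) : FiniteDimensional k
    (IntermediateField.adjoin k ({x, y} : Set (AlgebraicClosure k))) := by
  refine IntermediateField.finiteDimensional_adjoin ?_
  intro x _
  exact Algebra.IsIntegral.isIntegral x

instance adjoin_numberField (x y : AlgebraicClosure k) :
    NumberField (IntermediateField.adjoin k ({x, y} : Set (AlgebraicClosure k))) :=
  NumberField.of_module_finite k _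

/-- The residue field `k(P) = k(x, y)` of the point `P = (x : y : 1)`. -/
noncomputable abbrev resField (P : AlgebraicClosure k × AlgebraicClosure k) :
    IntermediateField k (AlgebraicClosure k) := IntermediateField.adjoin k {P.1, P.2}

/-- The coordinate `x = t(P)` of the point `P = (x : y : 1)`, as an element of `k(P)`. -/
noncomputable def coordX (P : AlgebraicClosure k × AlgebraicClosure k) : resField k P :=
  ⟨P.1, IntermediateField.subset_adjoin k _ (by simp)⟩

/-- The height `h_A(P)` for the ample sheaf `A = O_X(1) = t^* O(1)`, relative to `k`. -/
noncomputable def heightA (P : AlgebraicClosure k × AlgebraicClosure k) : ℝ :=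
  Height.logHeight₁ (coordX k P) / Module.finrank k (resField k P)

/-- The height `h_K(P)` for the canonical sheaf `K_X = O_X(n m - m - 2)`. -/
noncomputable def heightK (m n : ℕ) (P : AlgebraicClosure k × AlgebraicClosure k) : ℝ :=
  ((n : ℝ) * m - m - 2) * heightA k P

/-- The logarithmic discriminant `d(P) = log |Disc k(P)| / [k(P) : k]`. -/
noncomputable def logDisc (P : AlgebraicClosure k × AlgebraicClosure k) : ℝ :=
  log |(discr (resField k P) : ℝ)| / Module.finrank k (resField k P)

end

/-- The standard local Weil function on `P¹(L) = L ∪ {∞}` attached to an absolute value `w` of `L`,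
for the point `b`, evaluated at the affine point `x ≠ b`: `log (max(|x|,1) / |x - b|)` for `b ∈ L`,
and `log max(|x|,1)` for `b = ∞`. -/
noncomputable def weil {L : Type} [Field L] (w : L → ℝ) : Option L → L → ℝ
  | none, x => log (max (w x) 1)
  | some a, x => log (max (w x) 1) - log (w (x - a))

/-- The finite places of `L` lying above the rational primes in `T`, i.e. those at which some
`p ∈ T` does not have absolute value `1`. -/
noncomputable def placesOver (L : Type) [Field L] [NumberField L] (T : Finset ℕ) :
    Finset (FinitePlace L) :=
  (Pool.Agent.Results.MP_e44225_nt.LogTermDependsOnS.finite_placesOver L T).toFinset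

/-- The proximity function `m_S(D, P)` relative to `k` of the divisor `D = t^* B` on the curve,
where `B` is a finite set of points of `P¹(k) = k ∪ {∞}` and `S` consists of all infinite places
and all finite places above the primes in `T`. The places `w` of `k(P)` are normalised so that
the product formula holds. -/
noncomputable def prox (k : Type) [Field k] [NumberField k] (T : Finset ℕ)
    (B : Finset (Option k)) (P : AlgebraicClosure k × AlgebraicClosure k) : ℝ :=
  (∑ b ∈ B, ((∑ w : InfinitePlace (resField k P),
      (w.mult : ℝ) * weil w (b.map (algebraMap k (resField k P))) (coordX k P)) +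
    ∑ w ∈ placesOver (resField k P) T,
      weil w (b.map (algebraMap k (resField k P))) (coordX k P))) /
    Module.finrank k (resField k P)

end Pool.Agent.H505.VL
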