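import Pool.Agent.H505.VL.Stm
import Pool.Graph.R_seed8.Y733.VR.Disc
import Pool.Graph.R_seed8.Helper259.HtExt

set_option autoImplicit false

namespace Pool.Agent.H505.VL.NRM

open NumberField Real Polynomial Module

/-- Cauchy's bound -/
lemma cauchy_bound {A B : ℝ} (hA : 0 < A) (_hB : 0 ≤ B) (n : ℕ) (_hn : 1 ≤ n)
    (h : B ^ n ≤ ∑ j ∈ Finset.range n, A ^ (n - j) * B ^ j) : B ≤ 2 * A := by
  by_contra hlt
  rw [not_le] at hlt
  have hA0 : 0 < A := hA
  have hBA : 0 < B - A := by linarith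
  have hB0 : 0 < B := by linarith
  have h1 : ∑ j ∈ Finset.range n, A ^ (n - j) * B ^ j =
      A * ∑ j ∈ Finset.range n, B ^ j * A ^ (n - 1 - j) := by
    rw [Finset.mul_sum]
    refine Finset.sum_congr rfl fun j hj => ?_
    have hj' := Finset.mem_range.1 hj
    have e : n - j = (n - 1 - j) + 1 := by omega
    rw [e, pow_succ]
    ring
  have h2 := geom_sum₂_mul B A n
  rw [h1] at h
  have h3 : B ^ n * (B - A) ≤ A * (B ^ n - A ^ n) := by
    calc B ^ n * (B - A) ≤ (A * ∑ j ∈ Finset.range n, B ^ j * A ^ (n - 1 - j)) * (B - A) :=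
          mul_le_mul_of_nonneg_right h hBA.le
      _ = A * (B ^ n - A ^ n) := by rw [mul_assoc, h2]
  have h4 : 0 < A ^ n := pow_pos hA0 n
  have h5 : 0 < B ^ n := pow_pos hB0 n
  nlinarith

lemma sum_bound {A : ℝ} (hA : 0 < A) (n : ℕ) (hn : 1 ≤ n) :
    ∑ j ∈ Finset.range n, (((j + 1 : ℕ) : ℝ)) * A ^ (n - (j + 1)) * (2 * A) ^ j ≤
      n * 2 ^ n * A ^ (n - 1) := by
  have h1 : ∀ j ∈ Finset.range n, (((j + 1 : ℕ) : ℝ)) * A ^ (n - (j + 1)) * (2 * A) ^ j ≤
      (n * A ^ (n - 1)) * 2 ^ j := by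
    intro j hj
    have hj' := Finset.mem_range.1 hj
    have e : n - 1 = (n - (j + 1)) + j := by omega
    rw [e, mul_pow, pow_add]
    have h2 : (((j + 1 : ℕ) : ℝ)) ≤ n := by exact_mod_cast hj'
    have h3 : 0 ≤ A ^ (n - (j + 1)) * A ^ j * 2 ^ j := by positivity
    nlinarith
  refine (Finset.sum_le_sum h1).trans ?_
  rw [← Finset.mul_sum]
  have h4 : ∑ j ∈ Finset.range n, (2 : ℝ) ^ j = 2 ^ n - 1 := by
    have := geom_sum_eq (show (2 : ℝ) ≠ 1 by norm_num) n
    rw [this]
    norm_num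
  rw [h4]
  have h5 : 0 ≤ (n : ℝ) * A ^ (n - 1) := by positivity
  nlinarith

set_option linter.unusedSectionVars false

variable {k L : Type} [Field k] [NumberField k] [Field L] [NumberField L] [Algebra k L]

lemma coe_smul' (c : 𝓞 k) (b : 𝓞 L) : ((c • b : 𝓞 L) : L) = algebraMap k L (c : k) * (b : L) := by
  have h1 : algebraMap (𝓞 L) L (c • b) = algebraMap k L (algebraMap (𝓞 k) k c) *
      algebraMap (𝓞 L) L b := by
    rw [Algebra.smul_def, map_mul]
    rfl
  exact h1

lemma w_nat (w : InfinitePlace L) (a : ℕ) : w ((a : ℕ) : L) = a := by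
  rw [← InfinitePlace.norm_embedding_eq w, map_natCast, Complex.norm_natCast]

lemma w_le (w : InfinitePlace L) (g : (𝓞 k)[X]) (n : ℕ) (hn : 1 ≤ n) (hg : g.Monic)
    (hd : g.natDegree = n) (β : 𝓞 L) (h0 : aeval β g = 0) (A : ℝ) (hA : 0 < A)
    (hc : ∀ i ≤ n, (w.comap (algebraMap k L)) ((g.coeff (n - i) : 𝓞 k) : k) ≤ A ^ i) :
    w (β : L) ≤ 2 * A := by
  refine cauchy_bound hA (apply_nonneg w _) n hn ?_
  have h1 : (aeval β g : 𝓞 L) = ∑ i ∈ Finset.range (n + 1), g.coeff i • β ^ i := by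
    rw [aeval_eq_sum_range, hd]
  rw [h0, Finset.sum_range_succ] at h1
  have hlead : g.coeff n = 1 := by rw [← hd]; exact hg.coeff_natDegree
  rw [hlead, one_smul] at h1
  have h2 : β ^ n = -∑ i ∈ Finset.range n, g.coeff i • β ^ i := by
    rw [eq_neg_iff_add_eq_zero, add_comm]
    exact h1.symm
  have h3 : (β : L) ^ n = -∑ i ∈ Finset.range n, algebraMap k L ((g.coeff i : 𝓞 k) : k) *
      (β : L) ^ i := by
    have := congrArg (algebraMap (𝓞 L) L) h2
    rw [map_pow, map_neg, map_sum] at this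
    refine this.trans ?_
    congr 1
  calc w (β : L) ^ n = w ((β : L) ^ n) := (map_pow w _ _).symm
    _ = w (∑ i ∈ Finset.range n, algebraMap k L ((g.coeff i : 𝓞 k) : k) * (β : L) ^ i) := by
        rw [h3]
        exact map_neg_eq_map w.1 _
    _ ≤ ∑ i ∈ Finset.range n, w (algebraMap k L ((g.coeff i : 𝓞 k) : k) * (β : L) ^ i) := by
        exact w.1.sum_le _ _
    _ ≤ ∑ j ∈ Finset.range n, A ^ (n - j) * w (β : L) ^ j := by
        refine Finset.sum_le_sum fun j hj => ?_
        have hj' := Finset.mem_range.1 hj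
        rw [map_mul, map_pow]
        refine mul_le_mul_of_nonneg_right ?_ (pow_nonneg (apply_nonneg w _) _)
        have := hc (n - j) (by omega)
        rw [show n - (n - j) = j by omega, InfinitePlace.comap_apply] at this
        exact this

lemma w_deriv_le (w : InfinitePlace L) (g : (𝓞 k)[X]) (n : ℕ) (hn : 1 ≤ n) (hg : g.Monic)
    (hd : g.natDegree = n) (β : 𝓞 L) (h0 : aeval β g = 0) (A : ℝ) (hA : 0 < A)
    (hc : ∀ i ≤ n, (w.comap (algebraMap k L)) ((g.coeff (n - i) : 𝓞 k) : k) ≤ A ^ i) :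
    w ((aeval β (derivative g) : 𝓞 L) : L) ≤ n * 2 ^ n * A ^ (n - 1) := by
  have hβ := w_le w g n hn hg hd β h0 A hA hc
  have hdeg : (derivative g).natDegree < n := by
    rw [← hd]
    exact natDegree_derivative_lt (by omega)
  have h1 : (aeval β (derivative g) : 𝓞 L) =
      ∑ j ∈ Finset.range n, (derivative g).coeff j • β ^ j :=
    aeval_eq_sum_range' hdeg β
  have h2 : ((aeval β (derivative g) : 𝓞 L) : L) = ∑ j ∈ Finset.range n,
      (((j + 1 : ℕ) : L) * algebraMap k L ((g.coeff (j + 1) : 𝓞 k) : k)) * (β : L) ^ j := by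
    rw [h1]
    refine (map_sum (algebraMap (𝓞 L) L) _ _).trans ?_
    refine Finset.sum_congr rfl fun j _ => ?_
    refine (coe_smul' _ _).trans ?_
    rw [coeff_derivative]
    congr 1
    · have h3 : algebraMap k L (algebraMap (𝓞 k) k (g.coeff (j + 1) * ((j : 𝓞 k) + 1))) =
          ((j + 1 : ℕ) : L) * algebraMap k L (algebraMap (𝓞 k) k (g.coeff (j + 1))) := by
        rw [map_mul, map_mul, map_add, map_add, map_one, map_one, map_natCast, map_natCast]
        push_cast
        ring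
      exact h3
  rw [h2]
  calc w (∑ j ∈ Finset.range n,
      (((j + 1 : ℕ) : L) * algebraMap k L ((g.coeff (j + 1) : 𝓞 k) : k)) * (β : L) ^ j)
      ≤ ∑ j ∈ Finset.range n,
        w ((((j + 1 : ℕ) : L) * algebraMap k L ((g.coeff (j + 1) : 𝓞 k) : k)) * (β : L) ^ j) :=
        w.1.sum_le _ _
    _ ≤ ∑ j ∈ Finset.range n, (((j + 1 : ℕ) : ℝ)) * A ^ (n - (j + 1)) * (2 * A) ^ j := by
        refine Finset.sum_le_sum fun j hj => ?_
        have hj' := Finset.mem_range.1 hj
        rw [map_mul, map_mul, map_pow, w_nat]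
        have h4 := hc (n - (j + 1)) (by omega)
        rw [show n - (n - (j + 1)) = j + 1 by omega, InfinitePlace.comap_apply] at h4
        have h5 : w (β : L) ^ j ≤ (2 * A) ^ j := pow_le_pow_left₀ (apply_nonneg w _) hβ j
        have h6 : (((j + 1 : ℕ) : ℝ)) * w (algebraMap k L ((g.coeff (j + 1) : 𝓞 k) : k)) ≤
            (((j + 1 : ℕ) : ℝ)) * A ^ (n - (j + 1)) :=
          mul_le_mul_of_nonneg_left h4 (Nat.cast_nonneg _)
        exact mul_le_mul h6 h5 (pow_nonneg (apply_nonneg w _) _) (by positivity)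
    _ ≤ _ := sum_bound hA n hn

theorem main : S_NRM := by
  intro k _ _ L _ _ _ n hn β hβ g hg hd h0 h1 A hA hc
  have hk : (0 : ℝ) < finrank ℚ k := by exact_mod_cast finrank_pos
  have hkL : (0 : ℝ) < finrank k L := by exact_mod_cast finrank_pos
  have hLk := Pool.Agent.Y733.VR.finrank_tower k L
  have hld := Pool.Agent.Y733.VR.ld_le k L β hβ g h0 h1
  set γ : 𝓞 L := aeval β (derivative g) with hγ
  have hγ0 : (γ : L) ≠ 0 := by
    intro h
    exact h1 (by exact_mod_cast h)
  -- the norm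
  have hnorm : Real.log |(Algebra.norm ℚ (γ : L) : ℝ)| =
      ∑ w : InfinitePlace L, (w.mult : ℝ) * Real.log (w (γ : L)) := by
    have h2 := InfinitePlace.prod_eq_abs_norm (K := L) (γ : L)
    have h3 : |(Algebra.norm ℚ (γ : L) : ℝ)| = ∏ w : InfinitePlace L, w (γ : L) ^ w.mult := by
      rw [h2]
      push_cast
      rfl
    rw [h3, Real.log_prod]
    · refine Finset.sum_congr rfl fun w _ => ?_
      rw [Real.log_pow]
    · intro w _
      exact pow_ne_zero _ ((map_ne_zero w).2 hγ0)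
  have hA0 : ∀ v, 0 < A v := hA
  have hsum : ∑ w : InfinitePlace L, (w.mult : ℝ) * Real.log (A (w.comap (algebraMap k L))) =
      finrank k L * ∑ v : InfinitePlace k, (v.mult : ℝ) * Real.log (A v) := by
    have h2 := Pool.Agent.Helper259.HtExt.prod_inf_ext (K := k) (L := L) A
    have h3 := congrArg Real.log h2
    rw [Real.log_pow, Real.log_prod (fun w _ => pow_ne_zero _ (hA0 _).ne'),
      Real.log_prod (fun w _ => pow_ne_zero _ (hA0 _).ne')] at h3
    simpa only [Real.log_pow] using h3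
  have hmult : ∑ w : InfinitePlace L, (w.mult : ℝ) = finrank ℚ k * finrank k L := by
    rw [← hLk]
    exact_mod_cast InfinitePlace.sum_mult_eq (K := L)
  have hn0 : (0 : ℝ) < n := by exact_mod_cast hn
  have hlogn : 0 ≤ Real.log n := Real.log_natCast_nonneg n
  have hw : ∀ w : InfinitePlace L, Real.log (w (γ : L)) ≤
      (Real.log n + n * Real.log 2) + ((n : ℝ) - 1) * Real.log (A (w.comap (algebraMap k L))) := by
    intro w
    have h2 := w_deriv_le w g n hn hg hd β h0 (A (w.comap (algebraMap k L))) (hA _) (hc _)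
    have h3 : 0 < w (γ : L) := InfinitePlace.pos_iff.2 hγ0
    have h4 := Real.log_le_log h3 h2
    rw [Real.log_mul (by positivity) (pow_ne_zero _ (hA0 _).ne'),
      Real.log_mul hn0.ne' (by positivity), Real.log_pow, Real.log_pow] at h4
    have h5 : (((n - 1 : ℕ)) : ℝ) = (n : ℝ) - 1 := by
      rw [Nat.cast_sub hn, Nat.cast_one]
    rw [h5] at h4
    exact h4
  have hN : Real.log |(Algebra.norm ℚ (γ : L) : ℝ)| ≤ finrank k L *
      (((n : ℝ) - 1) * ∑ v : InfinitePlace k, (v.mult : ℝ) * Real.log (A v) +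
        (finrank ℚ k : ℝ) * (Real.log n + n * Real.log 2)) := by
    rw [hnorm]
    calc ∑ w : InfinitePlace L, (w.mult : ℝ) * Real.log (w (γ : L))
        ≤ ∑ w : InfinitePlace L, (w.mult : ℝ) * ((Real.log n + n * Real.log 2) +
          ((n : ℝ) - 1) * Real.log (A (w.comap (algebraMap k L)))) :=
          Finset.sum_le_sum fun w _ => mul_le_mul_of_nonneg_left (hw w) (Nat.cast_nonneg _)
      _ = (Real.log n + n * Real.log 2) * ∑ w : InfinitePlace L, (w.mult : ℝ) +
          ((n : ℝ) - 1) * ∑ w : InfinitePlace L, (w.mult : ℝ) *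
            Real.log (A (w.comap (algebraMap k L))) := by
          rw [Finset.mul_sum, Finset.mul_sum, ← Finset.sum_add_distrib]
          refine Finset.sum_congr rfl fun w _ => ?_
          ring
      _ = _ := by
          rw [hmult, hsum]
          ring
  have hN' : Real.log |(Algebra.norm ℚ (γ : L) : ℝ)| / finrank k L ≤
      (((n : ℝ) - 1) * ∑ v : InfinitePlace k, (v.mult : ℝ) * Real.log (A v) +
        (finrank ℚ k : ℝ) * (Real.log n + n * Real.log 2)) := by
    rw [div_le_iff₀ hkL, mul_comm]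
    exact hN
  unfold Pool.Agent.Y733.VR.ld at hld
  rw [hLk] at hld
  have h6 := mul_le_mul_of_nonneg_left hld hk.le
  have e1 : (finrank ℚ k : ℝ) * (Real.log |(discr L : ℝ)| / (finrank ℚ k * finrank k L)) =
      Real.log |(discr L : ℝ)| / finrank k L := by
    field_simp
  have e2 : (finrank ℚ k : ℝ) * (Real.log |(discr k : ℝ)| / finrank ℚ k +
      Real.log |(Algebra.norm ℚ (γ : L) : ℝ)| / (finrank ℚ k * finrank k L)) =
      Real.log |(discr k : ℝ)| + Real.log |(Algebra.norm ℚ (γ : L) : ℝ)| / finrank k L := by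
    field_simp
  rw [e1, e2] at h6
  have h7 : (finrank ℚ k : ℝ) * (Real.log n + n * Real.log 2) ≤
      (finrank ℚ k : ℝ) * (2 * Real.log n + n * Real.log 2) :=
    mul_le_mul_of_nonneg_left (by linarith) hk.le
  linarith

end Pool.Agent.H505.VL.NRM
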