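import Pool.Agent.H505.VL.Stm

set_option autoImplicit false

namespace Pool.Agent.H505.VL.PRF

open NumberField Real Polynomial Module IsDedekindDomain Ideal
open scoped NNReal WithZero

lemma toNNReal_pow (a : ℝ≥0) (f : ℕ) (ha : a ≠ 0) (hf : f ≠ 0) (b : ℝ≥0) (hb : b ≠ 0)
    (hab : b = a ^ f)
    (y : ℤᵐ⁰) : WithZeroMulInt.toNNReal hb y = (WithZeroMulInt.toNNReal ha y) ^ f := by
  by_cases hy : y = 0
  · subst hy
    rw [map_zero, map_zero, zero_pow hf]
  · rw [WithZeroMulInt.toNNReal_neg_apply hb hy, WithZeroMulInt.toNNReal_neg_apply ha hy, hab,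
      ← zpow_natCast, ← zpow_natCast, ← zpow_mul, ← zpow_mul, mul_comm]

section

variable {k : Type} [Field k] [NumberField k] {L : Type} [Field L] [NumberField L] [Algebra k L]

/-- `e f` -/
noncomputable def ef (v : HeightOneSpectrum (𝓞 k)) (w : HeightOneSpectrum (𝓞 L)) : ℕ :=
  v.asIdeal.ramificationIdx' w.asIdeal * v.asIdeal.inertiaDeg' w.asIdeal

lemma inertia_ne (v : HeightOneSpectrum (𝓞 k)) (w : HeightOneSpectrum (𝓞 L))
    [w.asIdeal.LiesOver v.asIdeal] : v.asIdeal.inertiaDeg' w.asIdeal ≠ 0 := by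
  have : v.asIdeal.IsMaximal := v.isMaximal
  exact inertiaDeg'_ne_zero v.asIdeal w.asIdeal

lemma ef_ne (v : HeightOneSpectrum (𝓞 k)) (w : HeightOneSpectrum (𝓞 L))
    [w.asIdeal.LiesOver v.asIdeal] : ef v w ≠ 0 := by
  refine mul_ne_zero ?_ (inertia_ne v w)
  exact IsDedekindDomain.ramificationIdx'_ne_zero_of_liesOver _ v.ne_bot

lemma abv_ext (v : HeightOneSpectrum (𝓞 k)) (w : HeightOneSpectrum (𝓞 L))
    [w.asIdeal.LiesOver v.asIdeal] (x : k) :
    HeightOneSpectrum.adicAbv L w (algebraMap k L x) =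
      (HeightOneSpectrum.adicAbv k v x) ^ ef v w := by
  rw [HeightOneSpectrum.adicAbv_def, HeightOneSpectrum.adicAbv_def]
  rw [← HeightOneSpectrum.valuation_liesOver L v w x]
  rw [toNNReal_pow (absNorm v.asIdeal : ℝ≥0) (v.asIdeal.inertiaDeg' w.asIdeal)
    (HeightOneSpectrum.absNorm_ne_zero v) (inertia_ne v w) (absNorm w.asIdeal : ℝ≥0)
    (HeightOneSpectrum.absNorm_ne_zero w)]
  · rw [map_pow, ← pow_mul, ef]
    push_cast
    rfl
  · rw [absNorm_eq_pow_inertiaDeg'_of_liesOver w.asIdeal v.asIdeal v.isPrime v.ne_bot]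
    push_cast
    rfl

/-- the finite place below -/
noncomputable def below (k : Type) [Field k] [NumberField k] {L : Type} [Field L] [NumberField L]
    [Algebra k L] (w : FinitePlace L) : FinitePlace k :=
  FinitePlace.mk (HeightOneSpectrum.under (𝓞 k) w.maximalIdeal)

lemma place_apply {K : Type} [Field K] [NumberField K] (w : FinitePlace K) (x : K) :
    w x = HeightOneSpectrum.adicAbv K w.maximalIdeal x := by
  rw [← FinitePlace.norm_embedding_eq, FinitePlace.norm_embedding]

lemma place_ext (w : FinitePlace L) (x : k) :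
    w (algebraMap k L x) = (below k w x) ^ ef (below k w).maximalIdeal w.maximalIdeal := by
  have h : (below k w).maximalIdeal = HeightOneSpectrum.under (𝓞 k) w.maximalIdeal :=
    FinitePlace.maximalIdeal_mk _
  rw [place_apply w, place_apply (below k w), h]
  have : w.maximalIdeal.asIdeal.LiesOver (HeightOneSpectrum.under (𝓞 k) w.maximalIdeal).asIdeal :=
    ⟨rfl⟩
  exact abv_ext _ _ x

lemma c_ne (w : FinitePlace L) : ef (below k w).maximalIdeal w.maximalIdeal ≠ 0 := by
  have h : (below k w).maximalIdeal = HeightOneSpectrum.under (𝓞 k) w.maximalIdeal :=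
    FinitePlace.maximalIdeal_mk _
  rw [h]
  have : w.maximalIdeal.asIdeal.LiesOver (HeightOneSpectrum.under (𝓞 k) w.maximalIdeal).asIdeal :=
    ⟨rfl⟩
  exact ef_ne _ _

lemma max_pow_one (t : ℝ) (ht : 0 ≤ t) (c : ℕ) : max (t ^ c) 1 = (max t 1) ^ c := by
  rcases le_total t 1 with h | h
  · rw [max_eq_right h, one_pow, max_eq_right (pow_le_one₀ ht h)]
  · rw [max_eq_left h, max_eq_left (one_le_pow₀ h)]

lemma place_nonneg {K : Type} [Field K] [NumberField K] (w : FinitePlace K) (x : K) : 0 ≤ w x := by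
  rw [place_apply]
  exact AbsoluteValue.nonneg _ _

lemma weil_ext (w : FinitePlace L) (b : Option k) (x : k) :
    weil w (b.map (algebraMap k L)) (algebraMap k L x) =
      (ef (below k w).maximalIdeal w.maximalIdeal : ℝ) * weil (below k w) b x := by
  cases b with
  | none =>
    simp only [Option.map_none, weil]
    rw [place_ext, max_pow_one _ (place_nonneg _ _), Real.log_pow]
  | some a =>
    simp only [Option.map_some, weil]
    rw [← map_sub, place_ext, place_ext, max_pow_one _ (place_nonneg _ _), Real.log_pow,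
      Real.log_pow, mul_sub]

lemma mem_places {K : Type} [Field K] [NumberField K] {T : Finset ℕ} {v : FinitePlace K} :
    v ∈ placesOver K T ↔ ∃ p ∈ T, p ≠ 0 ∧ v (p : K) ≠ 1 := by
  simp [placesOver]

lemma mem_places_ext (T : Finset ℕ) (w : FinitePlace L) :
    w ∈ placesOver L T ↔ below k w ∈ placesOver k T := by
  rw [mem_places, mem_places]
  have key : ∀ p : ℕ, w (p : L) = 1 ↔ (below k w) (p : k) = 1 := by
    intro p
    have h1 : (p : L) = algebraMap k L (p : k) := by simp
    rw [h1, place_ext, pow_eq_one_iff_of_nonneg (place_nonneg _ _) (c_ne w)]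
  constructor
  · rintro ⟨p, hp, h0, h1⟩
    exact ⟨p, hp, h0, fun h => h1 ((key p).2 h)⟩
  · rintro ⟨p, hp, h0, h1⟩
    exact ⟨p, hp, h0, fun h => h1 ((key p).1 h)⟩

open Classical in
lemma sum_fiber (T : Finset ℕ) (v : FinitePlace k) (hv : v ∈ placesOver k T) :
    ∑ w ∈ (placesOver L T).filter (fun w => below k w = v), (ef v.maximalIdeal w.maximalIdeal : ℝ) =
      (finrank k L : ℝ) := by
  have hmax : v.maximalIdeal.asIdeal.IsMaximal := v.maximalIdeal.isMaximal
  rw [← sum_ramification_inertia (𝓞 L) k L (p := v.maximalIdeal.asIdeal) v.maximalIdeal.ne_bot]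
  push_cast
  refine Finset.sum_bij (fun w _ => w.maximalIdeal.asIdeal) ?_ ?_ ?_ ?_
  · intro w hw
    rw [Finset.mem_filter] at hw
    rw [IsDedekindDomain.mem_primesOverFinset_iff v.maximalIdeal.ne_bot]
    refine ⟨w.maximalIdeal.isPrime, ?_⟩
    rw [← hw.2]
    have h : (below k w).maximalIdeal = HeightOneSpectrum.under (𝓞 k) w.maximalIdeal :=
      FinitePlace.maximalIdeal_mk _
    rw [h]
    exact ⟨rfl⟩
  · intro w _ w' _ h
    exact (FinitePlace.maximalIdeal_inj w w').1 (HeightOneSpectrum.ext h)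
  · intro P hP
    rw [IsDedekindDomain.mem_primesOverFinset_iff v.maximalIdeal.ne_bot] at hP
    obtain ⟨hPp, hPl⟩ := hP
    have hPb : P ≠ ⊥ := by
      exact ne_bot_of_mem_primesOver v.maximalIdeal.ne_bot ⟨hPp, hPl⟩
    refine ⟨FinitePlace.mk ⟨P, hPp, hPb⟩, ?_, ?_⟩
    · have hb : below k (FinitePlace.mk ⟨P, hPp, hPb⟩ : FinitePlace L) = v := by
        unfold below
        rw [FinitePlace.maximalIdeal_mk]
        have : HeightOneSpectrum.under (𝓞 k) (⟨P, hPp, hPb⟩ : HeightOneSpectrum (𝓞 L)) =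
            v.maximalIdeal := by
          apply HeightOneSpectrum.ext
          exact hPl.over.symm
        rw [this, FinitePlace.mk_maximalIdeal]
      rw [Finset.mem_filter]
      refine ⟨?_, hb⟩
      rw [mem_places_ext (k := k), hb]
      exact hv
    · rw [FinitePlace.maximalIdeal_mk]
  · intro w _
    rw [ef]
    push_cast
    rfl

end

theorem main : S_PRF := by
  intro k _ _ L _ _ _ T _ b x _
  classical
  rw [← Finset.sum_fiberwise_of_maps_to (s := placesOver L T) (t := placesOver k T)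
    (g := fun w => below k w) (fun w hw => (mem_places_ext T w).1 hw), Finset.mul_sum]
  refine Finset.sum_congr rfl fun v hv => ?_
  rw [← sum_fiber (L := L) T v hv, Finset.sum_mul]
  refine Finset.sum_congr ?_ fun w hw => ?_
  · ext w
    simp only [Finset.mem_filter]
  · rw [Finset.mem_filter] at hw
    rw [weil_ext (k := k), hw.2]

end Pool.Agent.H505.VL.PRF
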