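import Pool.Agent.H505.VL.Stm
import Pool.Graph.R_seed8.Helper259.HtExt

set_option autoImplicit false

namespace Pool.Agent.H505.VL.PRI

open NumberField Real Polynomial Module

lemma sum_inf_ext (k : Type) [Field k] [NumberField k] (L : Type) [Field L] [NumberField L]
    [Algebra k L] (φ : InfinitePlace k → ℝ) :
    ∑ w : InfinitePlace L, (w.mult : ℝ) * φ (w.comap (algebraMap k L)) =
      (finrank k L : ℝ) * ∑ v : InfinitePlace k, (v.mult : ℝ) * φ v := by
  have h := Pool.Agent.Helper259.HtExt.prod_inf_ext (K := k) (L := L) (fun v => Real.exp (φ v))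
  have h2 := congrArg Real.log h
  rw [Real.log_pow, Real.log_prod, Real.log_prod] at h2
  · simpa only [Real.log_pow, Real.log_exp] using h2
  · intro v _
    exact pow_ne_zero _ (Real.exp_ne_zero _)
  · intro w _
    exact pow_ne_zero _ (Real.exp_ne_zero _)

lemma weil_comap (k : Type) [Field k] [NumberField k] (L : Type) [Field L] [NumberField L]
    [Algebra k L] (w : InfinitePlace L) (b : Option k) (x : k) :
    weil w (b.map (algebraMap k L)) (algebraMap k L x) =
      weil (w.comap (algebraMap k L)) b x := by
  cases b with
  | none =>
    simp only [Option.map_none, weil, InfinitePlace.comap_apply]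
  | some a =>
    simp only [Option.map_some, weil, InfinitePlace.comap_apply, map_sub]

theorem main : S_PRI := by
  intro k _ _ L _ _ _ b x _
  rw [← sum_inf_ext k L (fun v => weil v b x)]
  refine Finset.sum_congr rfl fun w _ => ?_
  rw [weil_comap]

end Pool.Agent.H505.VL.PRI
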