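import Mathlib
import Pool.Agent.H505.VL.Defs
import Pool.Graph.R_seed8.Helper259.HtExt

/-!
# The integral equation of a point of a curve in `P(1, m, 1)`
-/

set_option autoImplicit false

namespace Pool.Agent.H505.VL.Alg

open NumberField Real Polynomial Module
open Pool.Agent.H505.VL

section field
variable {k : Type} [Field k] {m n : ℕ} {F : MvPolynomial (Fin 3) k}

theorem expo (h : SmoothCurve k m n F) {μ : Fin 3 →₀ ℕ} (hμ : F.coeff μ ≠ 0) :
    μ 0 + m * μ 1 + μ 2 = n * m := by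
  have h1 := h.homogeneous hμ
  rw [Finsupp.weight_apply, Finsupp.sum_fintype _ _ (fun i => by simp), Fin.sum_univ_three] at h1
  simp only [wt, smul_eq_mul, Matrix.cons_val_zero, Matrix.cons_val_one, Matrix.cons_val,
    mul_one] at h1
  rw [← h1, mul_comm m]

theorem expo_le (hm : 1 ≤ m) (h : SmoothCurve k m n F) {μ : Fin 3 →₀ ℕ} (hμ : F.coeff μ ≠ 0) :
    μ 1 ≤ n := by
  have h1 := expo h hμ
  have h2 : m * μ 1 ≤ m * n := by rw [mul_comm m n]; omega
  exact Nat.le_of_mul_le_mul_left h2 (by omega)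

theorem expo_eq (hm : 1 ≤ m) (h : SmoothCurve k m n F) {μ : Fin 3 →₀ ℕ} (hμ : F.coeff μ ≠ 0)
    (h1 : μ 1 = n) : μ = Finsupp.single 1 n := by
  have h2 := expo h hμ
  rw [h1, mul_comm m n] at h2
  ext i
  fin_cases i
  · show μ 0 = (Finsupp.single 1 n : Fin 3 →₀ ℕ) 0
    rw [Finsupp.single_eq_of_ne (by decide)]
    omega
  · simp [h1]
  · show μ 2 = (Finsupp.single 1 n : Fin 3 →₀ ℕ) 2
    rw [Finsupp.single_eq_of_ne (by decide)]
    omega

theorem aeval_eq {R : Type} [CommRing R] [Algebra k R] (F : MvPolynomial (Fin 3) k) (x y z : R) :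
    MvPolynomial.aeval ![x, y, z] F =
      ∑ μ ∈ F.support, algebraMap k R (F.coeff μ) * (x ^ μ 0 * y ^ μ 1 * z ^ μ 2) := by
  rw [MvPolynomial.aeval_def, MvPolynomial.eval₂_eq']
  refine Finset.sum_congr rfl fun μ _ => ?_
  rw [Fin.prod_univ_three]
  rfl

theorem fibre_some (F : MvPolynomial (Fin 3) k) (x : k) :
    fibre F (some x) = ∑ μ ∈ F.support, C (F.coeff μ * x ^ μ 0) * X ^ μ 1 := by
  change MvPolynomial.aeval ![C x, X, C 1] F = _
  refine (aeval_eq (R := k[X]) F (C x) X (C 1)).trans ?_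
  refine Finset.sum_congr rfl fun μ _ => ?_
  rw [C_1, one_pow, mul_one, C_mul, C_pow, mul_assoc]
  rfl

theorem fibre_natDegree (hm : 1 ≤ m) (h : SmoothCurve k m n F) (x : k) :
    (fibre F (some x)).natDegree ≤ n := by
  rw [fibre_some]
  refine Polynomial.natDegree_sum_le_of_forall_le _ _ fun μ hμ => ?_
  rw [MvPolynomial.mem_support_iff] at hμ
  exact (natDegree_C_mul_X_pow_le _ _).trans (expo_le hm h hμ)

theorem fibre_coeff (hm : 1 ≤ m) (h : SmoothCurve k m n F) (x : k) :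
    (fibre F (some x)).coeff n = F.coeff (Finsupp.single 1 n) := by
  classical
  rw [fibre_some, finsetSum_coeff]
  rw [Finset.sum_eq_single (Finsupp.single 1 n)]
  · rw [coeff_C_mul, coeff_X_pow]
    simp
  · intro μ hμ hne
    rw [MvPolynomial.mem_support_iff] at hμ
    rw [coeff_C_mul, coeff_X_pow, if_neg, mul_zero]
    intro h1
    exact hne (expo_eq hm h hμ h1.symm)
  · intro hμ
    exact absurd (MvPolynomial.mem_support_iff.2 h.avoids) hμ

theorem fibre_ne_zero (hm : 1 ≤ m) (h : SmoothCurve k m n F) (x : k) :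
    fibre F (some x) ≠ 0 := by
  intro h1
  have h2 := fibre_coeff hm h x
  rw [h1, coeff_zero] at h2
  exact h.avoids h2.symm

/-- the points over `x ∈ k` are the roots of the fibre -/
theorem aeval_fibre {R : Type} [CommRing R] [Algebra k R] (F : MvPolynomial (Fin 3) k) (x : k)
    (y : R) : aeval y (fibre F (some x)) = MvPolynomial.aeval ![algebraMap k R x, y, 1] F := by
  rw [fibre_some, aeval_eq, map_sum]
  refine Finset.sum_congr rfl fun μ _ => ?_
  simp only [map_mul, map_pow, aeval_C, aeval_X, one_pow, mul_one, mul_assoc]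

end field

section nf
variable {k : Type} [Field k] [NumberField k] {m n : ℕ} {F : MvPolynomial (Fin 3) k}

/-- common denominators -/
theorem exists_data (F : MvPolynomial (Fin 3) k) (a : k) (n : ℕ) :
    ∃ q : 𝓞 k, q ≠ 0 ∧ ∃ e : (Fin 3 →₀ ℕ) → 𝓞 k, ∀ μ, F.coeff μ ≠ 0 → μ 1 < n →
      (e μ : k) = (q : k) ^ (n - μ 1) * (a⁻¹ * F.coeff μ) := by
  classical
  obtain ⟨⟨q, hq⟩, hqx⟩ := IsLocalization.exist_integer_multiples (nonZeroDivisors (𝓞 k)) F.support
    (fun μ => a⁻¹ * F.coeff μ)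
  have hq0 : q ≠ 0 := nonZeroDivisors.ne_zero hq
  have h1 : ∀ μ, ∃ e : 𝓞 k, F.coeff μ ≠ 0 → μ 1 < n →
      (e : k) = (q : k) ^ (n - μ 1) * (a⁻¹ * F.coeff μ) := by
    intro μ
    by_cases hμ : F.coeff μ ≠ 0 ∧ μ 1 < n
    · obtain ⟨y, hy⟩ := hqx μ (MvPolynomial.mem_support_iff.2 hμ.1)
      refine ⟨q ^ (n - μ 1 - 1) * y, fun _ _ => ?_⟩
      rw [Algebra.smul_def] at hy
      change algebraMap (𝓞 k) k y = algebraMap (𝓞 k) k q * _ at hy
      change algebraMap (𝓞 k) k (q ^ (n - μ 1 - 1) * y) = (algebraMap (𝓞 k) k q) ^ (n - μ 1) * _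
      rw [map_mul, map_pow, hy]
      obtain ⟨s, hs⟩ : ∃ s, n - μ 1 = s + 1 := ⟨n - μ 1 - 1, by omega⟩
      rw [hs, Nat.add_sub_cancel, pow_succ]
      ring
    · exact ⟨0, fun h2 h3 => absurd ⟨h2, h3⟩ hμ⟩
  choose e he using h1
  exact ⟨q, hq0, e, he⟩

/-- the integral equation -/
noncomputable def gp (F : MvPolynomial (Fin 3) k) (n : ℕ) (e : (Fin 3 →₀ ℕ) → 𝓞 k) (x z : 𝓞 k) :
    (𝓞 k)[X] :=
  X ^ n + ∑ μ ∈ F.support.filter (fun μ => μ 1 < n), C (e μ * (x ^ μ 0 * z ^ μ 2)) * X ^ μ 1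

theorem gp_low (hn : 1 ≤ n) (e : (Fin 3 →₀ ℕ) → 𝓞 k) (x z : 𝓞 k) :
    (∑ μ ∈ F.support.filter (fun μ => μ 1 < n),
      C (e μ * (x ^ μ 0 * z ^ μ 2)) * X ^ μ 1 : (𝓞 k)[X]).degree < n := by
  refine (Polynomial.degree_sum_le _ _).trans_lt ?_
  rw [Finset.sup_lt_iff (by exact_mod_cast WithBot.bot_lt_coe n)]
  intro μ hμ
  refine (degree_C_mul_X_pow_le _ _).trans_lt ?_
  exact_mod_cast (Finset.mem_filter.1 hμ).2

theorem gp_monic (hn : 1 ≤ n) (e : (Fin 3 →₀ ℕ) → 𝓞 k) (x z : 𝓞 k) : (gp F n e x z).Monic :=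
  monic_X_pow_add (gp_low hn e x z)

theorem gp_natDegree (hn : 1 ≤ n) (e : (Fin 3 →₀ ℕ) → 𝓞 k) (x z : 𝓞 k) :
    (gp F n e x z).natDegree = n := by
  unfold gp
  rw [natDegree_add_eq_left_of_degree_lt, natDegree_X_pow]
  rw [degree_X_pow]
  exact gp_low hn e x z

/-- the sizes of the coefficients -/
noncomputable def sz (F : MvPolynomial (Fin 3) k) (n : ℕ) (e : (Fin 3 →₀ ℕ) → 𝓞 k)
    (v : InfinitePlace k) : ℝ :=
  1 + ∑ μ ∈ F.support.filter (fun μ => μ 1 < n), v ((e μ : 𝓞 k) : k)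

theorem one_le_sz (e : (Fin 3 →₀ ℕ) → 𝓞 k) (v : InfinitePlace k) : 1 ≤ sz F n e v := by
  unfold sz
  have : 0 ≤ ∑ μ ∈ F.support.filter (fun μ => μ 1 < n), v ((e μ : 𝓞 k) : k) :=
    Finset.sum_nonneg fun μ _ => apply_nonneg v _
  linarith

theorem v_sum_le {ι : Type} (v : InfinitePlace k) (s : Finset ι) (f : ι → k) :
    v (∑ i ∈ s, f i) ≤ ∑ i ∈ s, v (f i) := by
  classical
  induction s using Finset.induction_on with
  | empty => simp
  | insert a s ha ih =>
    rw [Finset.sum_insert ha, Finset.sum_insert ha]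
    exact (v.1.add_le _ _).trans (by
      change v (f a) + v (∑ i ∈ s, f i) ≤ _
      linarith)

theorem gp_coeff_le (h : SmoothCurve k m n F) (e : (Fin 3 →₀ ℕ) → 𝓞 k) (x z : 𝓞 k)
    (v : InfinitePlace k) (i : ℕ) (hi : i ≤ n) :
    v (((gp F n e x z).coeff (n - i) : 𝓞 k) : k) ≤
      (sz F n e v * max (v (x : k)) (v (z : k)) ^ m) ^ i := by
  classical
  set H : ℝ := max (v (x : k)) (v (z : k)) with hH
  have hH0 : 0 ≤ H := le_max_of_le_left (apply_nonneg v _)
  have hx : v (x : k) ≤ H := le_max_left _ _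
  have hz : v (z : k) ≤ H := le_max_right _ _
  rcases Nat.eq_zero_or_pos i with rfl | hi0
  · have h1 : (gp F n e x z).coeff (n - 0) = 1 := by
      unfold gp
      rw [Nat.sub_zero, coeff_add, coeff_X_pow, if_pos rfl, finsetSum_coeff,
        Finset.sum_eq_zero, add_zero]
      intro μ hμ
      rw [coeff_C_mul, coeff_X_pow, if_neg (Finset.mem_filter.1 hμ).2.ne', mul_zero]
    rw [h1, pow_zero]
    simp
  · have h1 : (gp F n e x z).coeff (n - i) =
        ∑ μ ∈ (F.support.filter (fun μ => μ 1 < n)).filter (fun μ => μ 1 = n - i),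
          e μ * (x ^ μ 0 * z ^ μ 2) := by
      unfold gp
      rw [coeff_add, coeff_X_pow, if_neg (by omega), zero_add, finsetSum_coeff,
        Finset.sum_filter (s := F.support.filter (fun μ => μ 1 < n))]
      refine Finset.sum_congr rfl fun μ _ => ?_
      rw [coeff_C_mul, coeff_X_pow]
      by_cases h2 : μ 1 = n - i
      · rw [if_pos h2.symm, if_pos h2, mul_one]
      · rw [if_neg (fun h3 => h2 h3.symm), if_neg h2, mul_zero]
    have h2 : (((gp F n e x z).coeff (n - i) : 𝓞 k) : k) =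
        ∑ μ ∈ (F.support.filter (fun μ => μ 1 < n)).filter (fun μ => μ 1 = n - i),
          (e μ : k) * ((x : k) ^ μ 0 * (z : k) ^ μ 2) := by
      rw [h1]
      change algebraMap (𝓞 k) k _ = _
      rw [map_sum]
      refine Finset.sum_congr rfl fun μ _ => ?_
      rw [map_mul, map_mul, map_pow, map_pow]
    rw [h2]
    calc v (∑ μ ∈ (F.support.filter (fun μ => μ 1 < n)).filter (fun μ => μ 1 = n - i),
          (e μ : k) * ((x : k) ^ μ 0 * (z : k) ^ μ 2))
        ≤ ∑ μ ∈ (F.support.filter (fun μ => μ 1 < n)).filter (fun μ => μ 1 = n - i),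
          v ((e μ : k) * ((x : k) ^ μ 0 * (z : k) ^ μ 2)) := v_sum_le v _ _
      _ ≤ ∑ μ ∈ (F.support.filter (fun μ => μ 1 < n)).filter (fun μ => μ 1 = n - i),
          v (e μ : k) * H ^ (m * i) := by
          refine Finset.sum_le_sum fun μ hμ => ?_
          rw [Finset.mem_filter, Finset.mem_filter, MvPolynomial.mem_support_iff] at hμ
          have h3 := expo h hμ.1.1
          have h4 : μ 0 + μ 2 = m * i := by
            have h5 : m * n = m * μ 1 + m * i := by
              rw [← mul_add, hμ.2, Nat.sub_add_cancel hi]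
            rw [mul_comm n m] at h3
            omega
          rw [map_mul, map_mul, map_pow, map_pow, ← h4, pow_add]
          gcongr
      _ = (∑ μ ∈ (F.support.filter (fun μ => μ 1 < n)).filter (fun μ => μ 1 = n - i),
          v (e μ : k)) * H ^ (m * i) := by rw [Finset.sum_mul]
      _ ≤ sz F n e v * H ^ (m * i) := by
          refine mul_le_mul_of_nonneg_right ?_ (by positivity)
          unfold sz
          have h6 := Finset.sum_le_sum_of_subset_of_nonneg
            (f := fun μ => v ((e μ : 𝓞 k) : k))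
            (Finset.filter_subset (fun μ => μ 1 = n - i) (F.support.filter (fun μ => μ 1 < n)))
            (fun μ _ _ => apply_nonneg v _)
          linarith
      _ ≤ (sz F n e v) ^ i * H ^ (m * i) := by
          refine mul_le_mul_of_nonneg_right ?_ (by positivity)
          exact le_self_pow₀ (one_le_sz e v) (by omega)
      _ = (sz F n e v * H ^ m) ^ i := by rw [mul_pow, ← pow_mul]

/-- the relation with the fibre -/
theorem gp_comp (hm : 1 ≤ m) (h : SmoothCurve k m n F) (q : 𝓞 k) (e : (Fin 3 →₀ ℕ) → 𝓞 k)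
    (he : ∀ μ, F.coeff μ ≠ 0 → μ 1 < n →
      (e μ : k) = (q : k) ^ (n - μ 1) * ((F.coeff (Finsupp.single 1 n))⁻¹ * F.coeff μ))
    (x z : 𝓞 k) (c : k) (hc : c * (z : k) = (x : k)) :
    ((gp F n e x z).map (algebraMap (𝓞 k) k)).comp (C ((q : k) * (z : k) ^ m) * X) =
      C ((q : k) ^ n * (F.coeff (Finsupp.single 1 n))⁻¹ * (z : k) ^ (n * m)) *
        fibre F (some c) := by
  classical
  have ha := h.avoids
  set a := F.coeff (Finsupp.single 1 n) with haa
  have h1 : fibre F (some c) = C a * X ^ n +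
      ∑ μ ∈ F.support.filter (fun μ => μ 1 < n), C (F.coeff μ * c ^ μ 0) * X ^ μ 1 := by
    rw [fibre_some, ← Finset.sum_filter_add_sum_filter_not F.support (fun μ => μ 1 < n), add_comm]
    congr 1
    have h2 : F.support.filter (fun μ => ¬ μ 1 < n) = {Finsupp.single 1 n} := by
      ext μ
      rw [Finset.mem_filter, Finset.mem_singleton, MvPolynomial.mem_support_iff]
      constructor
      · rintro ⟨h3, h4⟩
        exact expo_eq hm h h3 (le_antisymm (expo_le hm h h3) (not_lt.1 h4))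
      · rintro rfl
        refine ⟨ha, by simp⟩
    rw [h2, Finset.sum_singleton]
    simp [← haa]
  rw [h1]
  unfold gp
  rw [Polynomial.map_add, Polynomial.map_pow, map_X, add_comp, pow_comp, X_comp, mul_add]
  congr 1
  · rw [mul_pow, ← C_pow, ← mul_assoc, ← C_mul]
    congr 2
    rw [mul_pow, ← pow_mul, mul_comm m n]
    field_simp
  · rw [Polynomial.map_sum, Polynomial.sum_comp, Finset.mul_sum]
    refine Finset.sum_congr rfl fun μ hμ => ?_
    rw [Finset.mem_filter, MvPolynomial.mem_support_iff] at hμ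
    rw [Polynomial.map_mul, map_C, Polynomial.map_pow, map_X, mul_comp, C_comp, pow_comp, X_comp,
      mul_pow, ← C_pow, ← mul_assoc, ← C_mul, ← mul_assoc]
    conv_rhs => rw [← mul_assoc, ← C_mul]
    congr 2
    rw [map_mul, map_mul, map_pow, map_pow]
    change (e μ : k) * (x : k) ^ μ 0 * (z : k) ^ μ 2 * ((q : k) * (z : k) ^ m) ^ μ 1 = _
    rw [he μ hμ.1 hμ.2, ← hc, ← expo h hμ.1]
    have h7 : (q : k) ^ n = (q : k) ^ (n - μ 1) * (q : k) ^ μ 1 := by
      rw [← pow_add, Nat.sub_add_cancel hμ.2.le]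
    rw [h7, mul_pow, mul_pow, ← pow_mul, pow_add, pow_add]
    ring

end nf

end Pool.Agent.H505.VL.Alg
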