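import Mathlib
import Pool.Agent.H505.VL.Defs

/-!
# Interfaces for the failure of the logarithmic error term on curves of every genus (helper505)
-/

set_option autoImplicit false

namespace Pool.Agent.H505.VL

open NumberField Real Polynomial Module

/-- FIB: a smooth curve has only finitely many non-reduced fibres over `P¹(k)`.
PROOF. Let `f ∈ k[x][Y]` be the image of `F` under `X ↦ C x`, `Y ↦ Y`, `Z ↦ 1`. By weighted
homogeneity (exponents `(i, j, l)` in `F` satisfy `i + m j + l = n m`, so `j ≤ n`, and `j = n` only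
for `(0, n, 0)`) `f` has degree `n` and leading coefficient the constant `a = coeff (single 1 n) F`,
so `a⁻¹ f` is monic.
(1) the image of `f` in `k(x)[Y]` is separable. Otherwise (characteristic 0,
`PerfectField.separable_iff_squarefree`) it is divisible by `g ^ 2` with `g` monic of positive
degree; `k[x]` is integrally closed, so `g` comes from a monic `g ∈ k[x][Y]`
(`IsIntegrallyClosed.eq_map_mul_C_of_dvd`) and `f = g ^ 2 h` in `k[x][Y]`. Take any root `y ∈ kbar`
of `g(0, Y)` (`x = 0`) and the point `P = (0, y, 1)`: `F(P) = f(0, y) = 0`, and `∂f/∂x`, `∂f/∂Y`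
vanish there, i.e. `F_X(P) = F_Y(P) = 0`; Euler's identity `X F_X + m Y F_Y + Z F_Z = n m F` gives
`F_Z(P) = 0` as well: a contradiction to smoothness.
(2) So `u f + v f' = 1` in `k(x)[Y]`; clearing denominators `u' f + v' f' = r(x)` in `k[x][Y]` with
`r ≠ 0`. For `c ∈ k` with `r(c) ≠ 0` (all but finitely many) the fibre `f(c, Y)` is separable. -/
def S_FIB : Prop :=
  ∀ (k : Type) [Field k] [NumberField k] (m n : ℕ) (F : MvPolynomial (Fin 3) k), 1 ≤ m → 1 ≤ n →
    SmoothCurve k m n F → {b : Option k | ¬ (fibre F b).Separable}.Finite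

/-- INT: integral coordinates with bounded greatest common divisor.
PROOF. The class group is finite (`Fintype (ClassGroup (𝓞 k))`, `ClassGroup.mk0_surjective`): let
`c` be the maximum of `log (absNorm I)` over one integral ideal `I ≠ 0` in each class. Write
`x = X₀ / Z₀` with `X₀, Z₀ ∈ 𝓞 k`, `Z₀ ≠ 0`. The ideal `𝔞 = (X₀, Z₀)` is in the class of some chosen
`I`: `(α) 𝔞 = (β) I` with `α, β ≠ 0` (`ClassGroup.mk0_eq_mk0_iff`). So `α X₀, α Z₀ ∈ (β)`: put
`X = α X₀ / β`, `Z = α Z₀ / β` in `𝓞 k`; then `(X, Z) = I`. By `NumberField.mulHeight_eq` (or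
`Height` API) and `NumberField.absNorm_mul_finprod_finitePlace_eq_one` for the vector `![X, Z]`,
`∑ mult v * log max (v X) (v Z) = logHeight ![X, Z] + log absNorm (X, Z)`, and
`logHeight ![X, Z] = logHeight₁ (X / Z) = logHeight₁ x` (`Height.logHeight₁_div_eq_logHeight`). -/
def S_INT : Prop :=
  ∀ (k : Type) [Field k] [NumberField k], ∃ c : ℝ, ∀ x : k, ∃ X Z : 𝓞 k, Z ≠ 0 ∧
    x * (Z : k) = (X : k) ∧
    ∑ v : InfinitePlace k, (v.mult : ℝ) * log (max (v (X : k)) (v (Z : k))) ≤
      Height.logHeight₁ x + c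

/-- NRM: the logarithmic discriminant of `k(β)` for a root `β` of an integral monic polynomial `g`
of degree `n` with `|coefficient of Y^(n-i)|_v ≤ A_v ^ i`.
PROOF. `Pool.Agent.Y733.VR.ld_le` (library module `Pool/Graph/R_seed8/Y733/VR/Disc.lean`) gives
`log |disc L| / [L : ℚ] ≤ log |disc k| / [k : ℚ] + log |N_{L/ℚ} g'(β)| / [L : ℚ]`; multiply by
`[k : ℚ]`. Next `|N_{L/ℚ} γ| = ∏_{w | ∞} w(γ) ^ mult w` (`InfinitePlace.prod_eq_abs_norm`).
For `w` above `v = w.comap (algebraMap k L)`: `w(β) ≤ 2 A_v` (Cauchy: if `w(β) > 2 A_v`, then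
`w(β)^n ≤ ∑_{i=1}^n A_v^i w(β)^(n-i) < w(β)^n`), so
`w(g'(β)) ≤ ∑_{j=1}^n j A_v^(n-j) (2 A_v)^(j-1) ≤ n 2^n A_v^(n-1)`. Taking logarithms and summing
over `w` with `∑_{w | v} mult w = [L : k] mult v`, i.e. `∏_w g(w.comap) ^ mult w =
(∏_v g(v) ^ mult v) ^ [L : k]` (`Pool.Agent.Helper259.HtExt.prod_inf_ext`, library module
`Pool/Graph/R_seed8/Helper259/HtExt.lean`) and `∑ mult w = [L : ℚ]`. -/
def S_NRM : Prop :=
  ∀ (k : Type) [Field k] [NumberField k] (L : Type) [Field L] [NumberField L] [Algebra k L]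
    (n : ℕ), 1 ≤ n → ∀ (β : 𝓞 L), IntermediateField.adjoin k {(β : L)} = ⊤ →
    ∀ (g : (𝓞 k)[X]), g.Monic → g.natDegree = n → aeval β g = 0 → aeval β (derivative g) ≠ 0 →
    ∀ A : InfinitePlace k → ℝ, (∀ v, 0 < A v) →
    (∀ v : InfinitePlace k, ∀ i ≤ n, v ((g.coeff (n - i) : 𝓞 k) : k) ≤ A v ^ i) →
    log |(discr L : ℝ)| / finrank k L ≤ log |(discr k : ℝ)| +
      ((n : ℝ) - 1) * ∑ v : InfinitePlace k, (v.mult : ℝ) * log (A v) +
      (finrank ℚ k : ℝ) * (2 * log n + n * log 2)

/-- PRF: the sum of the Weil functions over the finite places above `T` in an extension.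
PROOF. Every finite place `w` of `L` lies over one finite place `v` of `k`; with
`c_w = e(w|v) f(w|v)` one has `w(a) = v(a) ^ c_w` for `a ∈ k`
(`IsDedekindDomain.HeightOneSpectrum.valuation_liesOver`, `FinitePlace` = `N(v) ^ (-ord_v)`, and
`N(w) = N(v) ^ f`; see `Pool.Agent.Y729.AE.val_ext`), so `weil w b x = c_w * weil v b x`
(`log max (t ^ c) 1 = c log max t 1`), and `w ∈ placesOver L T ↔ v ∈ placesOver k T`
(`w(p) = v(p) ^ c_w`, `c_w ≥ 1`). Finally `∑_{w | v} e f = [L : k]`
(`Ideal.sum_ramification_inertia`). -/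
def S_PRF : Prop :=
  ∀ (k : Type) [Field k] [NumberField k] (L : Type) [Field L] [NumberField L] [Algebra k L]
    (T : Finset ℕ), (∀ p ∈ T, p.Prime) → ∀ (b : Option k) (x : k), some x ≠ b →
    ∑ w ∈ placesOver L T, weil w (b.map (algebraMap k L)) (algebraMap k L x) =
      (finrank k L : ℝ) * ∑ v ∈ placesOver k T, weil v b x

/-- PRI: the sum of the Weil functions over the infinite places in an extension.
PROOF. `w(a) = v(a)` for `v = w.comap (algebraMap k L)`, and `∑_w mult w φ(w.comap) =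
[L : k] ∑_v mult v φ(v)`; this is `Pool.Agent.Helper259.HtExt.prod_inf_ext` (library module
`Pool/Graph/R_seed8/Helper259/HtExt.lean`) with `g v = exp (φ v)`, after taking logarithms. -/
def S_PRI : Prop :=
  ∀ (k : Type) [Field k] [NumberField k] (L : Type) [Field L] [NumberField L] [Algebra k L]
    (b : Option k) (x : k), some x ≠ b →
    ∑ w : InfinitePlace L, (w.mult : ℝ) * weil w (b.map (algebraMap k L)) (algebraMap k L x) =
      (finrank k L : ℝ) * ∑ v : InfinitePlace k, (v.mult : ℝ) * weil v b x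

end Pool.Agent.H505.VL
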