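import Mathlib
import Pool.Agent.H505.VL.Alg
import Pool.Agent.H505.VL.Stm
import Pool.Graph.R_seed8.Y135.EV

/-!
# The points of the curve over the points of the line
-/

set_option autoImplicit false

namespace Pool.Agent.H505.VL.Pt

open NumberField Real Polynomial Module
open Pool.Agent.H505.VL Pool.Agent.H505.VL.Alg

variable {k : Type} [Field k] [NumberField k] {m n : ℕ} {F : MvPolynomial (Fin 3) k}

/-- the point `(x : y : 1)` for `x ∈ k` -/
noncomputable abbrev pt (x : k) (y : AlgebraicClosure k) : AlgebraicClosure k × AlgebraicClosure k :=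
  (algebraMap k (AlgebraicClosure k) x, y)

theorem coordX_pt (x : k) (y : AlgebraicClosure k) :
    coordX k (pt x y) = algebraMap k (resField k (pt x y)) x := Subtype.ext rfl

theorem resField_pt (x : k) (y : AlgebraicClosure k) :
    resField k (pt x y) = IntermediateField.adjoin k {y} := by
  apply le_antisymm
  · rw [IntermediateField.adjoin_le_iff]
    rintro z (rfl | rfl)
    · exact IntermediateField.algebraMap_mem _ x
    · exact IntermediateField.mem_adjoin_simple_self k _
  · rw [IntermediateField.adjoin_le_iff]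
    rintro z rfl
    exact IntermediateField.subset_adjoin k _ (by simp)

theorem finrank_le (hm : 1 ≤ m) (h : SmoothCurve k m n F) (x : k) (y : AlgebraicClosure k)
    (hy : aeval y (fibre F (some x)) = 0) : finrank k (resField k (pt x y)) ≤ n := by
  rw [resField_pt, IntermediateField.adjoin.finrank (Algebra.IsIntegral.isIntegral y)]
  exact (Polynomial.natDegree_le_of_dvd (minpoly.dvd k y hy) (fibre_ne_zero hm h x)).trans
    (fibre_natDegree hm h x)

theorem heightA_pt (x : k) (y : AlgebraicClosure k) :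
    heightA k (pt x y) = Height.logHeight₁ x := by
  have h1 : Height.logHeight₁ (algebraMap k (resField k (pt x y)) x) =
      finrank k (resField k (pt x y)) * Height.logHeight₁ x := by
    rw [Height.logHeight₁_eq_logHeight, Height.logHeight₁_eq_logHeight,
      ← Pool.Agent.Helper259.HtExt.logHeight_ext (L := resField k (pt x y))]
    congr 1
    funext i
    fin_cases i
    · rfl
    · simp
  have h2 : (0 : ℝ) < finrank k (resField k (pt x y)) := by exact_mod_cast finrank_pos
  unfold heightA
  rw [coordX_pt, h1]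
  field_simp

theorem prox_pt (hPRF : S_PRF) (hPRI : S_PRI) (T : Finset ℕ) (hT : ∀ p ∈ T, p.Prime)
    (B : Finset (Option k)) (x : k) (hx : some x ∉ B) (y : AlgebraicClosure k) :
    prox k T B (pt x y) =
      Pool.Agent.Results.MP_e44225_nt.LogTermDependsOnS.proximity
        (Pool.Agent.Results.MP_e44225_nt.LogTermDependsOnS.placesOver k T) B x := by
  have h2 : (0 : ℝ) < finrank k (resField k (pt x y)) := by exact_mod_cast finrank_pos
  unfold prox Pool.Agent.Results.MP_e44225_nt.LogTermDependsOnS.proximity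
  rw [div_eq_iff h2.ne', Finset.sum_mul]
  refine Finset.sum_congr rfl fun b hb => ?_
  have hxb : some x ≠ b := fun h => hx (h ▸ hb)
  have h3 := hPRF k (resField k (pt x y)) T hT b x hxb
  have h4 := hPRI k (resField k (pt x y)) b x hxb
  rw [← coordX_pt] at h3 h4
  rw [h3, h4, ← mul_add, mul_comm]
  congr 1

theorem disc_bound (hINT : S_INT) (hNRM : S_NRM) (hm : 1 ≤ m) (hn : 1 ≤ n)
    (h : SmoothCurve k m n F) :
    ∃ c : ℝ, ∀ (x : k) (y : AlgebraicClosure k), (fibre F (some x)).Separable →
      aeval y (fibre F (some x)) = 0 →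
      logDisc k (pt x y) ≤ (m : ℝ) * ((n : ℝ) - 1) * Height.logHeight₁ x + c := by
  obtain ⟨q, hq0, e, he⟩ := exists_data F (F.coeff (Finsupp.single 1 n)) n
  obtain ⟨c0, hc0⟩ := hINT k
  set c1 : ℝ := ∑ v : InfinitePlace k, (v.mult : ℝ) * log (sz F n e v) with hc1
  have hn1 : (1 : ℝ) ≤ n := by exact_mod_cast hn
  refine ⟨log |(NumberField.discr k : ℝ)| + ((n : ℝ) - 1) * (c1 + m * c0) +
    (finrank ℚ k : ℝ) * (2 * log n + n * log 2), ?_⟩
  intro x y hsep hy
  obtain ⟨X', Z', hZ0, hxz, hH⟩ := hc0 x
  have hqk : (q : k) ≠ 0 := by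
    intro h1
    exact hq0 (RingOfIntegers.ext h1)
  have hZk : (Z' : k) ≠ 0 := by
    intro h1
    exact hZ0 (RingOfIntegers.ext h1)
  set L := resField k (pt x y) with hL
  set y' : L := ⟨y, IntermediateField.subset_adjoin k _ (by simp)⟩ with hy'
  obtain ⟨s, hs⟩ : ∃ s : k, s = (q : k) * (Z' : k) ^ m := ⟨_, rfl⟩
  have hs0 : s ≠ 0 := by
    rw [hs]
    exact mul_ne_zero hqk (pow_ne_zero _ hZk)
  set g := gp F n e X' Z' with hg
  set G := g.map (algebraMap (𝓞 k) k) with hG
  set f := fibre F (some x) with hf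
  set κ : k := (q : k) ^ n * (F.coeff (Finsupp.single 1 n))⁻¹ * (Z' : k) ^ (n * m) with hκ
  have hκ0 : κ ≠ 0 := mul_ne_zero (mul_ne_zero (pow_ne_zero _ hqk) (inv_ne_zero h.avoids))
    (pow_ne_zero _ hZk)
  have hcomp : G.comp (C s * X) = C κ * f := by
    rw [hs]
    exact gp_comp hm h q e he X' Z' x hxz
  have hyf : aeval y' f = 0 := by
    have h1 : (algebraMap L (AlgebraicClosure k)) (aeval y' f) = 0 := by
      rw [← aeval_algebraMap_apply]
      exact hy
    exact (map_eq_zero _).1 h1
  set β' : L := algebraMap k L s * y' with hβ'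
  have hroot : aeval β' G = 0 := by
    have h1 : aeval y' (G.comp (C s * X)) = aeval β' G := by
      rw [aeval_comp, map_mul, aeval_C, aeval_X]
    rw [← h1, hcomp, map_mul, hyf, mul_zero]
  have hder : aeval β' (derivative G) ≠ 0 := by
    intro h0
    have h1 := congrArg derivative hcomp
    rw [derivative_comp, derivative_C_mul, derivative_X, mul_one, derivative_C_mul] at h1
    have h2 := congrArg (aeval y') h1
    rw [map_mul, aeval_comp, map_mul, map_mul, aeval_C, aeval_C, aeval_X] at h2
    rw [← hβ', h0, mul_zero] at h2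
    have h3 : aeval y' (derivative f) ≠ 0 := hsep.aeval_derivative_ne_zero hyf
    have h4 : algebraMap k L κ ≠ 0 := by
      rw [Ne, map_eq_zero]
      exact hκ0
    exact (mul_ne_zero h4 h3) h2.symm
  have hgm : g.Monic := gp_monic hn e X' Z'
  have hint : IsIntegral (𝓞 k) β' := by
    refine ⟨g, hgm, ?_⟩
    have h1 : aeval β' G = 0 := hroot
    rw [hG, aeval_def, eval₂_map] at h1
    rw [← h1]
    rfl
  have hintZ : IsIntegral ℤ β' := by
    haveI : IsScalarTower ℤ (𝓞 k) L := IsScalarTower.of_algebraMap_eq' (Subsingleton.elim _ _)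
    exact isIntegral_trans (A := 𝓞 k) β' hint
  set β : 𝓞 L := ⟨β', hintZ⟩ with hβ
  have hco : ∀ p : (𝓞 k)[X], ((aeval β p : 𝓞 L) : L) = aeval β' (p.map (algebraMap (𝓞 k) k)) := by
    intro p
    change algebraMap (𝓞 L) L _ = _
    rw [aeval_def, aeval_def, eval₂_map, hom_eval₂]
    rfl
  have hadj : IntermediateField.adjoin k {(β : L)} = ⊤ := by
    have hy2 : y' ∈ IntermediateField.adjoin k {(β : L)} := by
      have h1 : y' = algebraMap k L s⁻¹ * β' := by
        rw [hβ', ← mul_assoc, ← map_mul, inv_mul_cancel₀ hs0, map_one, one_mul]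
      rw [h1]
      exact mul_mem (IntermediateField.algebraMap_mem _ _)
        (IntermediateField.mem_adjoin_simple_self k _)
    have h5 : IntermediateField.adjoin k {y'} = (⊤ : IntermediateField k L) := by
      apply IntermediateField.map_injective L.val
      rw [IntermediateField.adjoin_map, Set.image_singleton, ← AlgHom.fieldRange_eq_map,
        IntermediateField.fieldRange_val]
      exact (resField_pt x y).symm
    rw [eq_top_iff, ← h5, IntermediateField.adjoin_le_iff]
    rintro z rfl
    exact hy2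
  have hroot' : aeval β g = 0 := by
    apply RingOfIntegers.ext
    exact (hco g).trans hroot
  have hder' : aeval β (derivative g) ≠ 0 := by
    intro h0
    apply hder
    have h1 := hco (derivative g)
    rw [h0, ← derivative_map] at h1
    rw [hG, ← h1]
    simp
  have hHpos : ∀ v : InfinitePlace k, 0 < max (v (X' : k)) (v (Z' : k)) := fun v =>
    lt_max_of_lt_right (InfinitePlace.pos_iff.2 hZk)
  have hszpos : ∀ v : InfinitePlace k, 0 < sz F n e v := fun v =>
    lt_of_lt_of_le one_pos (one_le_sz e v)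
  have key := hNRM k L n hn β hadj g hgm (gp_natDegree hn e X' Z') hroot' hder'
    (fun v => sz F n e v * max (v (X' : k)) (v (Z' : k)) ^ m)
    (fun v => mul_pos (hszpos v) (pow_pos (hHpos v) m))
    (fun v i hi => gp_coeff_le h e X' Z' v i hi)
  have hsum : ∑ v : InfinitePlace k, (v.mult : ℝ) *
      log (sz F n e v * max (v (X' : k)) (v (Z' : k)) ^ m) =
      c1 + m * ∑ v : InfinitePlace k, (v.mult : ℝ) * log (max (v (X' : k)) (v (Z' : k))) := by
    rw [hc1, Finset.mul_sum, ← Finset.sum_add_distrib]
    refine Finset.sum_congr rfl fun v _ => ?_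
    rw [log_mul (hszpos v).ne' (pow_pos (hHpos v) m).ne', log_pow]
    ring
  rw [hsum] at key
  have h6 : ((n : ℝ) - 1) * (c1 + m * ∑ v : InfinitePlace k,
      (v.mult : ℝ) * log (max (v (X' : k)) (v (Z' : k)))) ≤
      ((n : ℝ) - 1) * (c1 + m * (Height.logHeight₁ x + c0)) := by
    refine mul_le_mul_of_nonneg_left ?_ (by linarith)
    have h7 : (0 : ℝ) ≤ m := Nat.cast_nonneg m
    nlinarith [mul_le_mul_of_nonneg_left hH h7]
  have h8 : logDisc k (pt x y) = log |(NumberField.discr L : ℝ)| / finrank k L := rfl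
  rw [h8]
  calc log |(NumberField.discr L : ℝ)| / finrank k L ≤ _ := key
    _ ≤ log |(NumberField.discr k : ℝ)| + ((n : ℝ) - 1) * (c1 + m * (Height.logHeight₁ x + c0)) +
      (finrank ℚ k : ℝ) * (2 * log n + n * log 2) := by linarith
    _ = _ := by ring

end Pool.Agent.H505.VL.Pt
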