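import Pool.Agent.H505.VL.Stm

set_option autoImplicit false

namespace Pool.Agent.H505.VL.FIB

open Polynomial

variable {k : Type} [Field k]

/-- the polynomial `F(x, Y, 1)` in `k[x][Y]` -/
noncomputable def ff (F : MvPolynomial (Fin 3) k) : k[X][X] := MvPolynomial.aeval ![C X, X, 1] F

theorem fibre_some (F : MvPolynomial (Fin 3) k) (c : k) :
    fibre F (some c) = (ff F).map (evalRingHom c) := by
  change MvPolynomial.aeval ![C c, X, C 1] F =
    (MvPolynomial.aeval ![C X, X, 1] F : k[X][X]).map (evalRingHom c)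
  induction F using MvPolynomial.induction_on with
  | C a => simp [Polynomial.algebraMap_apply]
  | add p q hp hq => rw [map_add, map_add, Polynomial.map_add, hp, hq]
  | mul_X p i hp =>
    rw [map_mul, map_mul, Polynomial.map_mul, hp]
    congr 1
    fin_cases i <;> simp

theorem ff_eq (F : MvPolynomial (Fin 3) k) :
    ff F = ∑ s ∈ F.support, C (C (F.coeff s) * X ^ (s 0)) * X ^ (s 1) := by
  unfold ff
  rw [MvPolynomial.aeval_def, MvPolynomial.eval₂_eq']
  refine Finset.sum_congr rfl fun s _ => ?_
  rw [Fin.prod_univ_three]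
  simp [Polynomial.algebraMap_apply, mul_assoc]

theorem ff_coeff (F : MvPolynomial (Fin 3) k) (j : ℕ) :
    (ff F).coeff j = ∑ s ∈ F.support, if j = s 1 then C (F.coeff s) * X ^ (s 0) else 0 := by
  rw [ff_eq, finsetSum_coeff]
  refine Finset.sum_congr rfl fun s _ => ?_
  rw [coeff_C_mul_X_pow]

theorem wt_eq {m n : ℕ} {F : MvPolynomial (Fin 3) k} (h : F.IsWeightedHomogeneous (wt m) (n * m))
    {s : Fin 3 →₀ ℕ} (hs : F.coeff s ≠ 0) : s 0 + s 1 * m + s 2 = n * m := by
  have h1 := h hs
  rw [Finsupp.weight_apply, Finsupp.sum_fintype _ _ (by simp), Fin.sum_univ_three] at h1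
  simpa [wt] using h1

theorem ff_coeff_lt {m n : ℕ} {F : MvPolynomial (Fin 3) k} (hm : 1 ≤ m)
    (h : F.IsWeightedHomogeneous (wt m) (n * m)) {j : ℕ} (hj : n < j) : (ff F).coeff j = 0 := by
  rw [ff_coeff]
  refine Finset.sum_eq_zero fun s hs => ?_
  rw [if_neg]
  intro e
  have h1 := wt_eq h (MvPolynomial.mem_support_iff.1 hs)
  rw [← e] at h1
  have : n * m < j * m := Nat.mul_lt_mul_of_pos_right hj hm
  omega

theorem ff_coeff_n {m n : ℕ} {F : MvPolynomial (Fin 3) k}
    (h : F.IsWeightedHomogeneous (wt m) (n * m)) :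
    (ff F).coeff n = C (F.coeff (Finsupp.single 1 n)) := by
  rw [ff_coeff, Finset.sum_eq_single (Finsupp.single 1 n)]
  · simp
  · intro s hs hne
    rw [if_neg]
    intro e
    apply hne
    have h1 := wt_eq h (MvPolynomial.mem_support_iff.1 hs)
    rw [← e] at h1
    have h2 : s 0 = 0 := by omega
    have h3 : s 2 = 0 := by omega
    ext i
    fin_cases i
    · simpa using h2
    · simpa using e.symm
    · simpa using h3
  · intro hs
    rw [MvPolynomial.notMem_support_iff] at hs
    simp [hs]

/-- the monic polynomial -/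
noncomputable def f1 (F : MvPolynomial (Fin 3) k) (n : ℕ) : k[X][X] :=
  C (C (F.coeff (Finsupp.single 1 n))⁻¹) * ff F

theorem f1_monic {m n : ℕ} {F : MvPolynomial (Fin 3) k} (hm : 1 ≤ m) (h : SmoothCurve k m n F) :
    (f1 F n).Monic ∧ (f1 F n).natDegree = n := by
  have h1 : (f1 F n).coeff n = 1 := by
    rw [f1, coeff_C_mul, ff_coeff_n h.homogeneous, ← C_mul, inv_mul_cancel₀ h.avoids, C_1]
  have h2 : ∀ j, n < j → (f1 F n).coeff j = 0 := by
    intro j hj
    rw [f1, coeff_C_mul, ff_coeff_lt hm h.homogeneous hj, mul_zero]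
  have h3 : (f1 F n).natDegree ≤ n := by
    rw [natDegree_le_iff_coeff_eq_zero]
    exact h2
  have h4 : (f1 F n).natDegree = n :=
    le_antisymm h3 (le_natDegree_of_ne_zero (by rw [h1]; exact one_ne_zero))
  exact ⟨by rw [Monic, leadingCoeff, h4, h1], h4⟩

theorem ff_eq_f1 {m n : ℕ} {F : MvPolynomial (Fin 3) k} (h : SmoothCurve k m n F) :
    ff F = C (C (F.coeff (Finsupp.single 1 n))) * f1 F n := by
  rw [f1, ← mul_assoc, ← C_mul, ← C_mul, mul_inv_cancel₀ h.avoids, C_1, C_1, one_mul]

/-! ### Dual numbers -/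

/-- Taylor expansion of order one -/
theorem taylor {A : Type} [CommRing A] [Algebra k A] (P v : Fin 3 → A)
    (F : MvPolynomial (Fin 3) k) :
    MvPolynomial.aeval (fun i => (TrivSqZeroExt.inl (P i) + TrivSqZeroExt.inr (v i) :
      DualNumber A)) F =
      TrivSqZeroExt.inl (MvPolynomial.aeval P F) +
        TrivSqZeroExt.inr (∑ i, v i * MvPolynomial.aeval P (MvPolynomial.pderiv i F)) := by
  induction F using MvPolynomial.induction_on with
  | C a =>
    simp [TrivSqZeroExt.algebraMap_eq_inl']
  | add p q hp hq =>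
    rw [map_add, hp, hq, map_add]
    simp only [map_add, mul_add, Finset.sum_add_distrib, TrivSqZeroExt.inl_add,
      TrivSqZeroExt.inr_add]
    abel
  | mul_X p i hp =>
    rw [map_mul, hp, MvPolynomial.aeval_X, map_mul, MvPolynomial.aeval_X]
    ext
    · simp
    · simp [Derivation.leibniz, MvPolynomial.pderiv_X, mul_add, Finset.sum_add_distrib,
        Pi.single_apply]
      have h1 : ∑ x, v x * (MvPolynomial.aeval P) (if i = x then p else 0) =
          v i * (MvPolynomial.aeval P) p := by
        rw [Finset.sum_eq_single i]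
        · simp
        · intro b _ hb
          rw [if_neg (Ne.symm hb), map_zero, mul_zero]
        · simp
      rw [h1, add_comm, Finset.sum_mul]
      congr 1
      refine Finset.sum_congr rfl fun x _ => ?_
      ring

/-! ### Separability over the function field -/

/-- evaluation of a polynomial in `k[x][Y]` -/
noncomputable def ev {A : Type} [CommRing A] [Algebra k A] (x y : A) : k[X][X] →ₐ[k] A :=
  Polynomial.eval₂AlgHom (Polynomial.aeval x) y (fun _ => Commute.all _ _)

theorem ev_ff {A : Type} [CommRing A] [Algebra k A] (x y : A) (F : MvPolynomial (Fin 3) k) :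
    ev x y (ff F) = MvPolynomial.aeval ![x, y, 1] F := by
  unfold ff
  rw [← AlgHom.comp_apply]
  congr 1
  apply MvPolynomial.algHom_ext
  intro i
  fin_cases i <;> simp [ev]

theorem sep {m n : ℕ} {F : MvPolynomial (Fin 3) k} [CharZero k] (hm : 1 ≤ m)
    (h : SmoothCurve k m n F) :
    ((f1 F n).map (algebraMap k[X] (FractionRing k[X]))).Separable := by
  obtain ⟨hmon, hdeg⟩ := f1_monic hm h
  rw [PerfectField.separable_iff_squarefree]
  intro g hg
  by_contra hu
  have hF0 : (f1 F n).map (algebraMap k[X] (FractionRing k[X])) ≠ 0 := (hmon.map _).ne_zero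
  have hg0 : g ≠ 0 := by
    rintro rfl
    simp at hg
    exact hF0 hg
  obtain ⟨g', hg'⟩ := IsIntegrallyClosed.eq_map_mul_C_of_dvd (FractionRing k[X]) hmon
    ((dvd_mul_right g g).trans hg)
  have hlc : leadingCoeff g ≠ 0 := leadingCoeff_ne_zero.2 hg0
  have hinj : Function.Injective (algebraMap k[X] (FractionRing k[X])) :=
    IsFractionRing.injective _ _
  have hmon' : g'.Monic := by
    apply monic_of_injective hinj
    have h1 := congrArg leadingCoeff hg'
    rw [leadingCoeff_mul, leadingCoeff_C] at h1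
    exact mul_right_cancel₀ hlc (h1.trans (one_mul _).symm)
  have hdvd : g' * g' ∣ f1 F n := by
    rw [← map_dvd_map (algebraMap k[X] (FractionRing k[X])) hinj (hmon'.mul hmon'),
      Polynomial.map_mul]
    refine dvd_trans ?_ hg
    exact mul_dvd_mul ⟨_, hg'.symm⟩ ⟨_, hg'.symm⟩
  obtain ⟨q, hq⟩ := hdvd
  have hpos : 0 < g'.natDegree := by
    rw [pos_iff_ne_zero]
    intro h0
    have h1 := (Monic.natDegree_eq_zero hmon').1 h0
    apply hu
    rw [← hg', h1, Polynomial.map_one, one_mul]
    exact isUnit_C.2 (isUnit_iff_ne_zero.2 hlc)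
  -- a root of `g'(0, Y)`
  set p : k[X] := g'.map (evalRingHom 0) with hp
  have hpm : p.Monic := hmon'.map _
  have hpd : p.degree ≠ 0 := by
    rw [degree_eq_natDegree hpm.ne_zero, hp, hmon'.natDegree_map]
    exact_mod_cast hpos.ne'
  obtain ⟨y, hy⟩ := IsAlgClosed.exists_aeval_eq_zero (AlgebraicClosure k) p hpd
  have hy' : ev (0 : AlgebraicClosure k) y g' = 0 := by
    have h1 : ((Polynomial.aeval (0 : AlgebraicClosure k) : k[X] →ₐ[k] AlgebraicClosure k) :
        k[X] →+* AlgebraicClosure k) =
        (algebraMap k (AlgebraicClosure k)).comp (evalRingHom 0) := by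
      apply Polynomial.ringHom_ext
      · intro a
        simp
      · simp
    have h2 : ev (0 : AlgebraicClosure k) y g' = aeval y p := by
      rw [hp, aeval_def, eval₂_map, ← h1]
      rfl
    rw [h2, hy]
  set P : Fin 3 → AlgebraicClosure k := ![0, y, 1] with hP
  have hP0 : P ≠ 0 := by
    intro h0
    have := congrFun h0 2
    simp [hP] at this
  have key : ∀ α β : AlgebraicClosure k, ∀ v : Fin 3 → AlgebraicClosure k, v = ![α, β, 0] →
      MvPolynomial.aeval P F = 0 ∧
      ∑ i, v i * MvPolynomial.aeval P (MvPolynomial.pderiv i F) = 0 := by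
    intro α β v hv
    have h1 := taylor P v F
    have h2 : (fun i => (TrivSqZeroExt.inl (P i) + TrivSqZeroExt.inr (v i) :
        DualNumber (AlgebraicClosure k))) =
        ![TrivSqZeroExt.inr α, TrivSqZeroExt.inl y + TrivSqZeroExt.inr β, 1] := by
      funext i
      fin_cases i <;> simp [hP, hv]
    have h3 : ∀ z : k[X][X], TrivSqZeroExt.fst (ev (TrivSqZeroExt.inr α :
        DualNumber (AlgebraicClosure k)) (TrivSqZeroExt.inl y + TrivSqZeroExt.inr β) z) =
        ev (0 : AlgebraicClosure k) y z := by
      intro z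
      have h4 : (TrivSqZeroExt.fstHom k (AlgebraicClosure k) (AlgebraicClosure k)).comp
          (ev (TrivSqZeroExt.inr α : DualNumber (AlgebraicClosure k))
            (TrivSqZeroExt.inl y + TrivSqZeroExt.inr β)) = ev (0 : AlgebraicClosure k) y := by
        apply Polynomial.algHom_ext'
        · apply Polynomial.algHom_ext
          simp [ev]
        · simp [ev]
      exact DFunLike.congr_fun h4 z
    have h5 : ev (TrivSqZeroExt.inr α : DualNumber (AlgebraicClosure k))
        (TrivSqZeroExt.inl y + TrivSqZeroExt.inr β) g' *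
        ev (TrivSqZeroExt.inr α : DualNumber (AlgebraicClosure k))
        (TrivSqZeroExt.inl y + TrivSqZeroExt.inr β) g' = 0 := by
      have h6 := h3 g'
      rw [hy'] at h6
      ext
      · rw [TrivSqZeroExt.fst_mul, h6]; simp
      · rw [TrivSqZeroExt.snd_mul, h6]; simp
    rw [h2, ← ev_ff, ff_eq_f1 h, hq, map_mul, map_mul, map_mul, h5, zero_mul, mul_zero] at h1
    constructor
    · have := congrArg TrivSqZeroExt.fst h1
      simpa using this.symm
    · have := congrArg TrivSqZeroExt.snd h1
      simpa using this.symm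
  have k1 := (key 1 0 _ rfl)
  have k2 := (key 0 1 _ rfl)
  have hFP := k1.1
  have hX := k1.2
  have hY := k2.2
  rw [Fin.sum_univ_three] at hX hY
  simp at hX hY
  have hE := h.homogeneous.sum_weight_X_mul_pderiv
  have hE2 := congrArg (MvPolynomial.aeval P) hE
  rw [map_sum, Fin.sum_univ_three, map_nsmul, map_nsmul, map_nsmul, map_nsmul, hFP, map_mul,
    map_mul, map_mul, hX, hY] at hE2
  simp [wt, hP] at hE2
  obtain ⟨i, hi⟩ := h.smooth P hP0 hFP
  fin_cases i
  · exact hi hX
  · exact hi hY
  · exact hi hE2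

theorem main : S_FIB := by
  intro k _ _ m n F hm hn h
  obtain ⟨hmon, hdeg⟩ := f1_monic hm h
  have hsep := sep hm h
  have hinj : Function.Injective (algebraMap k[X] (FractionRing k[X])) :=
    IsFractionRing.injective _ _
  obtain ⟨u, v, huv⟩ := hsep
  obtain ⟨b₁, hb₁, hu⟩ := IsLocalization.integerNormalization_spec (nonZeroDivisors k[X]) u
  obtain ⟨b₂, hb₂, hv⟩ := IsLocalization.integerNormalization_spec (nonZeroDivisors k[X]) v
  set u' := IsLocalization.integerNormalization (nonZeroDivisors k[X]) u with hu'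
  set v' := IsLocalization.integerNormalization (nonZeroDivisors k[X]) v with hv'
  have hrel : C b₂ * u' * f1 F n + C b₁ * v' * derivative (f1 F n) = C (b₁ * b₂) := by
    apply map_injective _ hinj
    have hs : ∀ (b : k[X]) (w : (FractionRing k[X])[X]), b • w = C (algebraMap _ _ b) * w := by
      intro b w
      rw [Algebra.smul_def, Polynomial.algebraMap_apply]
    rw [Polynomial.map_add, Polynomial.map_mul, Polynomial.map_mul, Polynomial.map_mul,
      Polynomial.map_mul, hu, hv, map_C, map_C, map_C, ← derivative_map, map_mul, hs, hs, C_mul]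
    linear_combination (C (algebraMap k[X] (FractionRing k[X]) b₁) *
      C (algebraMap k[X] (FractionRing k[X]) b₂)) * huv
  have hb : b₁ * b₂ ≠ 0 := mul_ne_zero (nonZeroDivisors.ne_zero hb₁) (nonZeroDivisors.ne_zero hb₂)
  refine Set.Finite.subset (s := insert none (some '' {c : k | (b₁ * b₂).IsRoot c})) ?_ ?_
  · exact ((Polynomial.finite_setOfPred_isRoot hb).image _).insert _
  · intro b hbm
    cases b with
    | none => exact Set.mem_insert _ _
    | some c =>
      right
      refine ⟨c, ?_, rfl⟩
      by_contra hc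
      apply hbm
      have hc' : (b₁ * b₂).eval c ≠ 0 := hc
      show (fibre F (some c)).Separable
      rw [fibre_some, ff_eq_f1 h, Polynomial.map_mul, map_C]
      have h1 := congrArg (Polynomial.map (evalRingHom c)) hrel
      have e1 : ∀ a b d e : k[X][X], Polynomial.map (evalRingHom c) (a * b + d * e) =
          a.map (evalRingHom c) * b.map (evalRingHom c) +
            d.map (evalRingHom c) * e.map (evalRingHom c) := by
        intro a b d e
        rw [Polynomial.map_add, Polynomial.map_mul, Polynomial.map_mul]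
      rw [e1, ← derivative_map, map_C] at h1
      have hc2 : evalRingHom c (b₁ * b₂) ≠ 0 := hc'
      have hsp : ((f1 F n).map (evalRingHom c)).Separable := by
        refine ⟨C (evalRingHom c (b₁ * b₂))⁻¹ * (C b₂ * u').map (evalRingHom c),
          C (evalRingHom c (b₁ * b₂))⁻¹ * (C b₁ * v').map (evalRingHom c), ?_⟩
        rw [mul_assoc, mul_assoc, ← mul_add, h1, ← C_mul, inv_mul_cancel₀ hc2, C_1]
      unfold Separable at hsp ⊢
      rw [derivative_C_mul]
      refine (isCoprime_mul_unit_left ?_ _ _).2 hsp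
      refine isUnit_C.2 (isUnit_iff_ne_zero.2 ?_)
      simpa using h.avoids

end Pool.Agent.H505.VL.FIB

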