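import Pool.Agent.H505.VL.Stm

/-!
# Leaf INT: integral coordinates with bounded greatest common divisor
-/

set_option autoImplicit false

namespace Pool.Agent.H505.VL.INT

open NumberField Real Module

theorem iSup_two (f : Fin 2 → ℝ) : ⨆ i, f i = max (f 0) (f 1) := by
  apply le_antisymm
  · apply ciSup_le
    intro i
    fin_cases i
    · exact le_max_left _ _
    · exact le_max_right _ _
  · exact max_le (le_ciSup (Set.finite_range f).bddAbove 0) (le_ciSup (Set.finite_range f).bddAbove 1)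

/-- integral coordinates which generate a given representative of the ideal class -/
theorem coords (k : Type) [Field k] [NumberField k]
    (C : ClassGroup (𝓞 k) → nonZeroDivisors (Ideal (𝓞 k)))
    (hC : ∀ g, ClassGroup.mk0 (C g) = g) (x : k) :
    ∃ (X Z : 𝓞 k) (g : ClassGroup (𝓞 k)), Z ≠ 0 ∧ x * (Z : k) = (X : k) ∧
      Ideal.span {X, Z} = (C g : Ideal (𝓞 k)) := by
  obtain ⟨X₀, Z₀, hZ₀, hx⟩ := IsFractionRing.div_surjective (A := 𝓞 k) x
  have hZ₀' : Z₀ ≠ 0 := nonZeroDivisors.ne_zero hZ₀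
  have h0 : Ideal.span {X₀, Z₀} ≠ ⊥ := by
    intro h
    have h1 : Z₀ ∈ Ideal.span {X₀, Z₀} := Ideal.subset_span (by simp)
    rw [h, Ideal.mem_bot] at h1
    exact hZ₀' h1
  let 𝔞 : nonZeroDivisors (Ideal (𝓞 k)) := ⟨Ideal.span {X₀, Z₀}, mem_nonZeroDivisors_of_ne_zero h0⟩
  have h1 : ClassGroup.mk0 𝔞 = ClassGroup.mk0 (C (ClassGroup.mk0 𝔞)) := (hC _).symm
  obtain ⟨α, β, hα, hβ, h2⟩ := ClassGroup.mk0_eq_mk0_iff.1 h1
  have h3 : (𝔞 : Ideal (𝓞 k)) = Ideal.span {X₀, Z₀} := rfl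
  rw [h3] at h2
  set I : Ideal (𝓞 k) := (C (ClassGroup.mk0 𝔞) : Ideal (𝓞 k)) with hI
  have hle : Ideal.span {β} * I ≤ Ideal.span {β} := Ideal.mul_le_left
  have hmem : ∀ a ∈ ({X₀, Z₀} : Set (𝓞 k)), β ∣ α * a := by
    intro a ha
    have h4 : α * a ∈ Ideal.span {α} * Ideal.span {X₀, Z₀} :=
      Ideal.mul_mem_mul (Ideal.mem_span_singleton_self α) (Ideal.subset_span ha)
    rw [h2] at h4
    exact Ideal.mem_span_singleton.1 (hle h4)
  obtain ⟨X, hX⟩ := hmem X₀ (by simp)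
  obtain ⟨Z, hZ⟩ := hmem Z₀ (by simp)
  have hZne : Z ≠ 0 := by
    rintro rfl
    rw [mul_zero] at hZ
    exact (mul_ne_zero hα hZ₀') hZ
  refine ⟨X, Z, ClassGroup.mk0 𝔞, hZne, ?_, ?_⟩
  · have hαk : (algebraMap (𝓞 k) k α) ≠ 0 := by
      rw [Ne, FaithfulSMul.algebraMap_eq_zero_iff]
      exact hα
    have hβk : (algebraMap (𝓞 k) k β) ≠ 0 := by
      rw [Ne, FaithfulSMul.algebraMap_eq_zero_iff]
      exact hβ
    have hZ₀k : (algebraMap (𝓞 k) k Z₀) ≠ 0 := by
      rw [Ne, FaithfulSMul.algebraMap_eq_zero_iff]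
      exact hZ₀'
    have e1 : algebraMap (𝓞 k) k α * algebraMap (𝓞 k) k X₀ = algebraMap (𝓞 k) k β * algebraMap (𝓞 k) k X := by
      rw [← map_mul, ← map_mul, hX]
    have e2 : algebraMap (𝓞 k) k α * algebraMap (𝓞 k) k Z₀ = algebraMap (𝓞 k) k β * algebraMap (𝓞 k) k Z := by
      rw [← map_mul, ← map_mul, hZ]
    change x * algebraMap (𝓞 k) k Z = algebraMap (𝓞 k) k X
    have e3 : x * algebraMap (𝓞 k) k Z₀ = algebraMap (𝓞 k) k X₀ := by
      rw [← hx]
      field_simp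
    apply mul_left_cancel₀ hβk
    calc algebraMap (𝓞 k) k β * (x * algebraMap (𝓞 k) k Z)
        = x * (algebraMap (𝓞 k) k β * algebraMap (𝓞 k) k Z) := by ring
      _ = algebraMap (𝓞 k) k α * (x * algebraMap (𝓞 k) k Z₀) := by rw [← e2]; ring
      _ = algebraMap (𝓞 k) k β * algebraMap (𝓞 k) k X := by rw [e3, e1]
  · have hβI : Ideal.span {β} ≠ (⊥ : Ideal (𝓞 k)) := by
      rw [Ne, Ideal.span_singleton_eq_bot]
      exact hβ
    have h5 : Ideal.span {β} * Ideal.span {X, Z} = Ideal.span {α} * Ideal.span {X₀, Z₀} := by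
      rw [Ideal.span_mul_span', Ideal.span_mul_span']
      congr 1
      ext z
      simp only [Set.singleton_mul, Set.mem_image, Set.mem_insert_iff, Set.mem_singleton_iff]
      constructor
      · rintro ⟨w, rfl | rfl, rfl⟩
        · exact ⟨X₀, Or.inl rfl, hX⟩
        · exact ⟨Z₀, Or.inr rfl, hZ⟩
      · rintro ⟨w, rfl | rfl, rfl⟩
        · exact ⟨X, Or.inl rfl, hX.symm⟩
        · exact ⟨Z, Or.inr rfl, hZ.symm⟩
    rw [h2] at h5
    exact mul_left_cancel₀ hβI h5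

theorem main : S_INT := by
  intro k _ _
  classical
  have hsurj := ClassGroup.mk0_surjective (R := 𝓞 k)
  choose C hC using hsurj
  have hbdd : BddAbove (Set.range fun g : ClassGroup (𝓞 k) =>
      log (Ideal.absNorm (C g : Ideal (𝓞 k)) : ℝ)) := (Set.finite_range _).bddAbove
  obtain ⟨c, hc⟩ := hbdd
  refine ⟨c, fun x => ?_⟩
  obtain ⟨X, Z, g, hZ, hxZ, hspan⟩ := coords k C hC x
  refine ⟨X, Z, hZ, hxZ, ?_⟩
  have hZk : (Z : k) ≠ 0 := by
    rw [Ne, RingOfIntegers.coe_eq_zero_iff]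
    exact hZ
  have hx : x = (X : k) / (Z : k) := by
    rw [eq_div_iff hZk]
    exact hxZ
  have hcg : log (Ideal.absNorm (C g : Ideal (𝓞 k)) : ℝ) ≤ c := hc ⟨g, rfl⟩
  -- the finite places
  have hfin : (Ideal.absNorm (C g : Ideal (𝓞 k)) : ℝ) *
      ∏ᶠ v : FinitePlace k, ⨆ i, v (![(X : k), (Z : k)] i) = 1 := by
    have h1 := absNorm_mul_finprod_finitePlace_eq_one (show (![X, Z] : Fin 2 → 𝓞 k) ≠ 0 by
      intro h
      exact hZ (congrFun h 1))
    have h2 : Set.range (![X, Z] : Fin 2 → 𝓞 k) = {X, Z} := by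
      simp [Matrix.range_cons, Set.pair_comm]
    rw [h2, hspan] at h1
    have hv (i : Fin 2) : ((![X, Z] i : 𝓞 k) : k) = ![(X : k), (Z : k)] i := by
      fin_cases i <;> rfl
    simpa only [hv] using h1
  have hne : (![(X : k), (Z : k)] : Fin 2 → k) ≠ 0 := by
    intro h
    exact hZk (congrFun h 1)
  have hmul := NumberField.mulHeight_eq hne
  have hinf : ∏ v : InfinitePlace k, (⨆ i, v (![(X : k), (Z : k)] i)) ^ v.mult =
      ∏ v : InfinitePlace k, (max (v (X : k)) (v (Z : k))) ^ v.mult := by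
    apply Finset.prod_congr rfl
    intro v _
    rw [iSup_two]
    rfl
  rw [hinf] at hmul
  set P : ℝ := ∏ v : InfinitePlace k, (max (v (X : k)) (v (Z : k))) ^ v.mult with hP
  set F : ℝ := ∏ᶠ v : FinitePlace k, ⨆ i, v (![(X : k), (Z : k)] i) with hF
  have hmaxpos : ∀ v : InfinitePlace k, 0 < max (v (X : k)) (v (Z : k)) := fun v =>
    lt_of_lt_of_le (v.pos_iff.2 hZk) (le_max_right _ _)
  have hPpos : 0 < P := Finset.prod_pos fun v _ => pow_pos (hmaxpos v) _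
  have hN0 : (Ideal.absNorm (C g : Ideal (𝓞 k)) : ℝ) ≠ 0 := left_ne_zero_of_mul (hfin ▸ one_ne_zero)
  have hF0 : F ≠ 0 := right_ne_zero_of_mul (hfin ▸ one_ne_zero)
  have hlog1 : log (Ideal.absNorm (C g : Ideal (𝓞 k)) : ℝ) + log F = 0 := by
    rw [← log_mul hN0 hF0, hfin, log_one]
  have hlog2 : Height.logHeight₁ x = log P + log F := by
    rw [hx, Height.logHeight₁_div_eq_logHeight, Height.logHeight_eq_log_mulHeight, hmul,
      log_mul hPpos.ne' hF0]
  have hlog3 : log P = ∑ v : InfinitePlace k, (v.mult : ℝ) * log (max (v (X : k)) (v (Z : k))) := by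
    rw [hP, log_prod (fun v _ => (pow_pos (hmaxpos v) _).ne')]
    apply Finset.sum_congr rfl
    intro v _
    rw [log_pow]
  rw [← hlog3, hlog2]
  linarith

end Pool.Agent.H505.VL.INT
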