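import Mathlib
import Pool.Agent.H505.VL.Pt
import Pool.Agent.H505.VL.FIB
import Pool.Agent.H505.VL.INT
import Pool.Agent.H505.VL.NRM
import Pool.Agent.H505.VL.PRF
import Pool.Agent.H505.VL.PRI

/-!
# The logarithmic error term fails on smooth curves in `P(1, m, 1)`
-/

set_option autoImplicit false

namespace Pool.Agent.H505.VL.Main

open NumberField Real Polynomial Module
open Pool.Agent.H505.VL Pool.Agent.H505.VL.Alg Pool.Agent.H505.VL.Pt

theorem pd (k K : Type) [Field k] [Field K] [Algebra k K] (P : Fin 3 → K) (i j : Fin 3) (a : ℕ) :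
    MvPolynomial.aeval P (MvPolynomial.pderiv i (MvPolynomial.X j ^ a : MvPolynomial (Fin 3) k)) =
      if i = j then (a : K) * P j ^ (a - 1) else 0 := by
  classical
  rw [Derivation.leibniz_pow, MvPolynomial.pderiv_X]
  by_cases h : i = j
  · subst h
    simp
  · rw [if_neg h, Pi.single_eq_of_ne (fun h1 => h h1.symm)]
    simp

/-- the Fermat curves `Y ^ n = X ^ (n m) + Z ^ (n m)` -/
theorem fermat_smooth (k : Type) [Field k] [CharZero k] (m n : ℕ) (hm : 1 ≤ m) (hn : 1 ≤ n) :
    SmoothCurve k m n (MvPolynomial.X 1 ^ n - MvPolynomial.X 0 ^ (n * m) -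
      MvPolynomial.X 2 ^ (n * m)) := by
  have hnm : 1 ≤ n * m := Nat.mul_pos hn hm
  have hw : ∀ i : Fin 3, ∀ a : ℕ, (MvPolynomial.X i ^ a : MvPolynomial (Fin 3) k).IsWeightedHomogeneous
      (wt m) (a * wt m i) := by
    intro i a
    have h1 := (MvPolynomial.isWeightedHomogeneous_X k (wt m) i).pow a
    rwa [smul_eq_mul] at h1
  constructor
  · have h0 := hw 0 (n * m)
    have h1 := hw 1 n
    have h2 := hw 2 (n * m)
    simp only [wt, Matrix.cons_val_zero, Matrix.cons_val_one, Matrix.cons_val, mul_one] at h0 h1 h2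
    exact (h1.sub h0).sub h2
  · rw [MvPolynomial.coeff_sub, MvPolynomial.coeff_sub, MvPolynomial.coeff_X_pow,
      MvPolynomial.coeff_X_pow, MvPolynomial.coeff_X_pow, if_pos rfl, if_neg, if_neg]
    · simp
    · intro h
      have := DFunLike.congr_fun h 2
      simp at this
      omega
    · intro h
      have := DFunLike.congr_fun h 0
      simp at this
      omega
  · intro P hP _
    by_contra hall
    push Not at hall
    have h0 := hall 0
    have h1 := hall 1
    have h2 := hall 2
    have hK : CharZero (AlgebraicClosure k) :=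
      charZero_of_injective_algebraMap (algebraMap k (AlgebraicClosure k)).injective
    simp only [map_sub, pd] at h0 h1 h2
    simp only [Fin.isValue, zero_ne_one, if_false, if_true, one_ne_zero, Fin.reduceEq, zero_sub,
      sub_zero, neg_eq_zero, mul_eq_zero, Nat.cast_eq_zero] at h0 h1 h2
    have hn0 : n ≠ 0 := by omega
    have hm0 : m ≠ 0 := by omega
    apply hP
    have e1 : P 1 = 0 := by
      by_contra h
      rcases h1 with h1 | h1
      · exact hn0 h1
      · exact pow_ne_zero _ h h1
    have e0 : P 0 = 0 := by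
      by_contra h
      rcases h0 with h0 | h0
      · omega
      · exact pow_ne_zero _ h h0
    have e2 : P 2 = 0 := by
      by_contra h
      rcases h2 with h2 | h2
      · omega
      · exact pow_ne_zero _ h h2
    funext i
    fin_cases i
    · exact e0
    · exact e1
    · exact e2

/-- Main theorem. -/
theorem main (k : Type) [Field k] [NumberField k] (m n : ℕ) (hm : 1 ≤ m) (hn : 1 ≤ n)
    (F : MvPolynomial (Fin 3) k) (h : SmoothCurve k m n F) (B : Finset (Option k))
    (hB : 3 ≤ B.card) (T : Finset ℕ) (hT : ∀ p ∈ T, p.Prime) (C β : ℝ) (hC0 : 0 < C)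
    (hC : C < (finrank ℚ k : ℝ) * ((T.card : ℝ) - 1)) :
    {P : AlgebraicClosure k × AlgebraicClosure k |
      MvPolynomial.aeval ![P.1, P.2, 1] F = 0 ∧
      (∀ b : k, some b ∈ B → P.1 ≠ algebraMap k (AlgebraicClosure k) b) ∧
      finrank k (resField k P) ≤ n ∧
      C * log⁺ (heightA k P) + logDisc k P + β ≤ heightK k m n P + prox k T B P}.Infinite := by
  classical
  obtain ⟨c, hc⟩ := disc_bound INT.main NRM.main hm hn h
  have hinf := Pool.Agent.Y135.EV.infinite_three B hB T hT C (c + β) hC0 hC
  set Z : Set k := {x : k | some x ∉ B ∧ C * log⁺ (Height.logHeight₁ x) + (c + β) ≤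
    -2 * Height.logHeight₁ x + Pool.Agent.Results.MP_e44225_nt.LogTermDependsOnS.proximity
      (Pool.Agent.Results.MP_e44225_nt.LogTermDependsOnS.placesOver k T) B x} with hZ
  have hbad : {x : k | ¬ (fibre F (some x)).Separable}.Finite := by
    refine ((FIB.main k m n F hm hn h).preimage (f := fun x : k => some x) ?_).subset ?_
    · intro a _ b _ hab
      exact Option.some_injective _ hab
    · intro x hx
      exact hx
  have hinf2 : (Z \ {x : k | ¬ (fibre F (some x)).Separable}).Infinite := hinf.diff hbad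
  -- a point over every `x`
  have hpt : ∀ x : k, ∃ y : AlgebraicClosure k, aeval y (fibre F (some x)) = 0 := by
    intro x
    apply IsAlgClosed.exists_aeval_eq_zero
    have h1 := fibre_coeff hm h x
    intro h2
    have h3 : (fibre F (some x)).coeff n = 0 :=
      coeff_eq_zero_of_degree_lt (by rw [h2]; exact_mod_cast hn)
    rw [h3] at h1
    exact h.avoids h1.symm
  choose y hy using hpt
  have hinj : Set.InjOn (fun x : k => pt x (y x)) (Z \ {x : k | ¬ (fibre F (some x)).Separable}) := by
    intro a _ b _ hab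
    exact (algebraMap k (AlgebraicClosure k)).injective (Prod.ext_iff.1 hab).1
  refine (hinf2.image hinj).mono ?_
  rintro _ ⟨x, ⟨⟨hxB, hx⟩, hsep⟩, rfl⟩
  rw [Set.mem_setOf_eq, not_not] at hsep
  refine ⟨?_, ?_, finrank_le hm h x (y x) (hy x), ?_⟩
  · rw [← aeval_fibre]
    exact hy x
  · intro b hb hxb
    apply hxB
    have := (algebraMap k (AlgebraicClosure k)).injective hxb
    rw [this]
    exact hb
  · have h1 := hc x (y x) hsep (hy x)
    unfold heightK
    rw [heightA_pt, prox_pt PRF.main PRI.main T hT B x hxB]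
    have h2 : ((n : ℝ) * m - m - 2) * Height.logHeight₁ x -
        (m : ℝ) * ((n : ℝ) - 1) * Height.logHeight₁ x = -2 * Height.logHeight₁ x := by ring
    linarith

end Pool.Agent.H505.VL.Main
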